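import Mathlib
import Pool.Agent.Lib_helper98.RenyiInt4

set_option autoImplicit false
set_option linter.unusedSectionVars false

open scoped Kronecker ComplexOrder

namespace Pool.Agent.Lib_helper43.LA

open Matrix Pool.Agent.Lib_helper98.Renyi

variable {n m : Type*} [Fintype n] [DecidableEq n] [Fintype m] [DecidableEq m]

theorem supPow_mono {α : ℝ} (hα : 1 ≤ α) {x y : ℝ} (hx : 0 ≤ x) (hxy : x ≤ y) :
    supPow α x ≤ supPow α y := by
  have h0 : α ≠ 0 := by linarith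
  rw [supPow_of_pos_exp h0, supPow_of_pos_exp h0]
  exact Real.rpow_le_rpow hx hxy (by linarith)

theorem diag_re_nonneg {M : Matrix n n ℂ} (hM : M.PosSemidef) (i : n) : 0 ≤ (M i i).re := by
  have := hM.diag_nonneg (i := i)
  exact (Complex.le_def.1 this).1

theorem psd_conj' {M : Matrix n n ℂ} (hM : M.PosSemidef) (U : Matrix n n ℂ) :
    (Uᴴ * M * U).PosSemidef := hM.conjTranspose_mul_mul_same U

theorem trPow_mono {α : ℝ} (hα : 1 ≤ α) {X Y : Matrix n n ℂ} (hX : X.PosSemidef)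
    (hY : Y.PosSemidef) (hXY : (Y - X).PosSemidef) : trPow α X ≤ trPow α Y := by
  obtain ⟨U, x, hU, hU', hx, rfl⟩ := exists_spectral_nonneg hX
  obtain ⟨y, hy0, hy, hle⟩ := jensen_trace (supPow_convexOn hα) hY hU hU'
  rw [trPow_conj_diagonal _ U hU]
  refine le_trans (Finset.sum_le_sum fun i _ => supPow_mono hα (hx i) ?_) hle
  have h := diag_re_nonneg (psd_conj' hXY U) i
  have e : Uᴴ * (Y - U * diagonal (fun i => (x i : ℂ)) * Uᴴ) * U =
      Uᴴ * Y * U - diagonal (fun i => (x i : ℂ)) := by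
    rw [Matrix.mul_sub, Matrix.sub_mul]
    congr 1
    calc Uᴴ * (U * diagonal (fun i => (x i : ℂ)) * Uᴴ) * U
        = (Uᴴ * U) * diagonal (fun i => (x i : ℂ)) * (Uᴴ * U) := by simp only [Matrix.mul_assoc]
      _ = _ := by rw [hU, Matrix.one_mul, Matrix.mul_one]
  rw [e, Matrix.sub_apply, hy, diagonal_apply_eq, Complex.sub_re, Complex.ofReal_re,
    Complex.ofReal_re] at h
  linarith

theorem smul_one_sub_eq (U : Matrix n n ℂ) (hU' : U * Uᴴ = 1) (t : ℝ) (x : n → ℝ) :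
    (t : ℂ) • (1 : Matrix n n ℂ) - U * diagonal (fun i => (x i : ℂ)) * Uᴴ =
      U * diagonal (fun i => ((t - x i : ℝ) : ℂ)) * Uᴴ := by
  have h1 : (t : ℂ) • (1 : Matrix n n ℂ) = U * diagonal (fun _ => (t : ℂ)) * Uᴴ := by
    rw [← smul_one_eq_diagonal, Matrix.mul_smul, Matrix.smul_mul, Matrix.mul_one, hU']
  rw [h1, ← Matrix.sub_mul, ← Matrix.mul_sub, diagonal_sub]
  congr 3
  funext i
  push_cast
  rfl

theorem le_trPow {α : ℝ} (hα : 1 ≤ α) {X : Matrix n n ℂ} (hX : X.PosSemidef) :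
    ((((trPow α X) ^ (1 / α) : ℝ) : ℂ) • (1 : Matrix n n ℂ) - X).PosSemidef := by
  obtain ⟨U, x, hU, hU', hx, rfl⟩ := exists_spectral_nonneg hX
  rw [smul_one_sub_eq U hU']
  refine posSemidef_conj_diagonal U fun i => ?_
  have h0 : α ≠ 0 := by linarith
  have hα0 : 0 < α := by linarith
  rw [trPow_conj_diagonal _ U hU, sub_nonneg]
  have h1 : x i ^ α ≤ ∑ j, supPow α (x j) := by
    rw [← supPow_of_pos_exp h0]
    exact Finset.single_le_sum (f := fun j => supPow α (x j))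
      (fun j _ => supPow_nonneg (hx j)) (Finset.mem_univ i)
  calc x i = (x i ^ α) ^ (1 / α) := by
        rw [← Real.rpow_mul (hx i), mul_one_div_cancel h0, Real.rpow_one]
    _ ≤ _ := Real.rpow_le_rpow (Real.rpow_nonneg (hx i) _) h1 (by positivity)

theorem trPow_kron {A : Matrix n n ℂ} {B : Matrix m m ℂ} (hA : A.PosSemidef) (hB : B.PosSemidef)
    {α : ℝ} (a : trPow α A = 1) (b : trPow α B = 1) : trPow α (A ⊗ₖ B) = 1 := by
  have ha := (mpow_posSemidef hA α).trace_nonneg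
  have hb := (mpow_posSemidef hB α).trace_nonneg
  rw [trPow] at a b
  rw [trPow, mpow_kronecker hA hB, trace_kronecker, Complex.mul_re, a, b,
    ← (Complex.le_def.1 ha).2]
  simp

/-- lower bound for the spectrum on the support -/
theorem exists_r {ρ : Matrix n n ℂ} (hρ : ρ.PosSemidef) :
    ∃ r : ℝ, 0 < r ∧ ∀ s : ℝ, 0 < s →
      (((r ^ (-s) : ℝ) : ℂ) • (1 : Matrix n n ℂ) - mpow ρ (-s)).PosSemidef := by
  obtain ⟨U, d, hU, hU', hd, rfl⟩ := exists_spectral_nonneg hρ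
  obtain ⟨K, hK⟩ := (Set.finite_range fun i => (d i)⁻¹).bddAbove
  refine ⟨(max K 1)⁻¹, inv_pos.2 (lt_max_of_lt_right one_pos), fun s hs => ?_⟩
  rw [mpow_conj_diagonal _ U hU, smul_one_sub_eq U hU']
  refine posSemidef_conj_diagonal U fun i => ?_
  rw [sub_nonneg]
  have hm : 0 < max K 1 := lt_max_of_lt_right one_pos
  have e : ((max K 1)⁻¹ : ℝ) ^ (-s) = (max K 1) ^ s := by
    rw [Real.rpow_neg (inv_nonneg.2 hm.le), Real.inv_rpow hm.le, inv_inv]
  rcases eq_or_ne (d i) 0 with h0 | h0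
  · rw [h0, supPow_zero_right, e]; exact Real.rpow_nonneg hm.le _
  · rw [supPow_of_ne h0, e, Real.rpow_neg (hd i), ← Real.inv_rpow (hd i)]
    refine Real.rpow_le_rpow (inv_nonneg.2 (hd i)) ?_ hs.le
    exact (hK ⟨i, rfl⟩).trans (le_max_left _ _)

end Pool.Agent.Lib_helper43.LA
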