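import Mathlib
import Pool.Agent.Lib_helper43.LA.Core

set_option autoImplicit false
set_option linter.unusedSectionVars false

open scoped Kronecker ComplexOrder

namespace Pool.Agent.Lib_helper43.LA

open Matrix Pool.Agent.Lib_helper98.Renyi

variable {n m : Type*} [Fintype n] [DecidableEq n] [Fintype m] [DecidableEq m]

/-- The data of one side: `ρ ≥ 0`, `C` Hermitian on the support of `ρ`, diagonalised by `U`. -/
structure Side (ρ C U : Matrix n n ℂ) (c : n → ℝ) (r : ℝ) : Prop where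
  psd : ρ.PosSemidef
  left : mpow ρ 0 * C = C
  right : C * mpow ρ 0 = C
  hU : Uᴴ * U = 1
  hU' : U * Uᴴ = 1
  eq : C = U * diagonal (fun i => (c i : ℂ)) * Uᴴ
  r_pos : 0 < r
  r_le : ∀ s : ℝ, 0 < s →
      (((r ^ (-s) : ℝ) : ℂ) • (1 : Matrix n n ℂ) - mpow ρ (-s)).PosSemidef

/-- `A = ρ^(1/α)`. -/
noncomputable def AA (α : ℝ) (ρ : Matrix n n ℂ) : Matrix n n ℂ := mpow ρ (1 / α)

/-- `D = ρ^(1/2α) C ρ^(1/2α)`. -/
noncomputable def DD (α : ℝ) (ρ C : Matrix n n ℂ) : Matrix n n ℂ :=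
  mpow ρ (1 / (2 * α)) * C * mpow ρ (1 / (2 * α))

/-- `B = ρ^(-1/2α)`. -/
noncomputable def BB (α : ℝ) (ρ : Matrix n n ℂ) : Matrix n n ℂ := mpow ρ (-(1 / (2 * α)))

variable {ρ C U : Matrix n n ℂ} {c : n → ℝ} {r : ℝ}

theorem Side.UCU (S : Side ρ C U c r) : Uᴴ * C * U = diagonal (fun i => (c i : ℂ)) := by
  have h := S.eq
  calc Uᴴ * C * U = Uᴴ * (U * diagonal (fun i => (c i : ℂ)) * Uᴴ) * U := by rw [← h]
    _ = (Uᴴ * U) * diagonal (fun i => (c i : ℂ)) * (Uᴴ * U) := by simp only [Matrix.mul_assoc]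
    _ = _ := by rw [S.hU, Matrix.one_mul, Matrix.mul_one]

theorem Side.e1 (S : Side ρ C U c r) {i : n} (hi : c i ≠ 0) : (Uᴴ * mpow ρ 0 * U) i i = 1 := by
  have h : (Uᴴ * mpow ρ 0 * U) * diagonal (fun i => (c i : ℂ)) =
      diagonal (fun i => (c i : ℂ)) := by
    conv_lhs => rw [← S.UCU]
    calc (Uᴴ * mpow ρ 0 * U) * (Uᴴ * C * U) = Uᴴ * mpow ρ 0 * (U * Uᴴ) * C * U := by
          simp only [Matrix.mul_assoc]
      _ = Uᴴ * (mpow ρ 0 * C) * U := by rw [S.hU', Matrix.mul_one]; simp only [Matrix.mul_assoc]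
      _ = _ := by rw [S.left, S.UCU]
  have h2 := congrFun (congrFun h i) i
  rw [mul_diagonal, diagonal_apply_eq] at h2
  have h3 : (c i : ℂ) ≠ 0 := by exact_mod_cast hi
  exact mul_right_cancel₀ h3 (by rw [h2, one_mul])

theorem Side.e2 (S : Side ρ C U c r) {α : ℝ} (hα : 0 < α) (i : n) :
    ∃ b : ℝ, 0 ≤ b ∧ b ≤ r ^ (-(1 / α)) ∧ (Uᴴ * mpow ρ (-(1 / α)) * U) i i = (b : ℂ) := by
  have h1 := (psd_conj' (mpow_posSemidef S.psd (-(1 / α))) U).diag_nonneg (i := i)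
  have h2 := diag_re_nonneg (psd_conj' (S.r_le (1 / α) (by positivity)) U) i
  refine ⟨((Uᴴ * mpow ρ (-(1 / α)) * U) i i).re, (Complex.le_def.1 h1).1, ?_, ?_⟩
  · have e : Uᴴ * (((r ^ (-(1 / α)) : ℝ) : ℂ) • (1 : Matrix n n ℂ) - mpow ρ (-(1 / α))) * U =
        ((r ^ (-(1 / α)) : ℝ) : ℂ) • (1 : Matrix n n ℂ) - Uᴴ * mpow ρ (-(1 / α)) * U := by
      rw [Matrix.mul_sub, Matrix.sub_mul, Matrix.mul_smul, Matrix.smul_mul, Matrix.mul_one, S.hU]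
    rw [e, Matrix.sub_apply, Matrix.smul_apply, one_apply_eq, smul_eq_mul, mul_one,
      Complex.sub_re, Complex.ofReal_re] at h2
    linarith
  · have := (Complex.le_def.1 h1).2
    apply Complex.ext
    · simp
    · rw [Complex.ofReal_im]; exact this.symm

theorem Side.BAB (S : Side ρ C U c r) {α : ℝ} (hα : 0 < α) :
    BB α ρ * AA α ρ * BB α ρ = mpow ρ 0 := by
  rw [BB, AA, ← mpow_add S.psd, ← mpow_add S.psd]
  congr 1
  field_simp
  ring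

theorem Side.BBB (S : Side ρ C U c r) {α : ℝ} (hα : 0 < α) :
    BB α ρ * BB α ρ = mpow ρ (-(1 / α)) := by
  rw [BB, ← mpow_add S.psd]
  congr 1
  field_simp
  ring

theorem Side.BDB (S : Side ρ C U c r) {α : ℝ} (_hα : 0 < α) :
    BB α ρ * DD α ρ C * BB α ρ = C := by
  have h1 : mpow ρ (-(1 / (2 * α))) * mpow ρ (1 / (2 * α)) = mpow ρ 0 := by
    rw [← mpow_add S.psd]; congr 1; ring
  have h2 : mpow ρ (1 / (2 * α)) * mpow ρ (-(1 / (2 * α))) = mpow ρ 0 := by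
    rw [← mpow_add S.psd]; congr 1; ring
  calc BB α ρ * DD α ρ C * BB α ρ
      = (mpow ρ (-(1 / (2 * α))) * mpow ρ (1 / (2 * α))) * C *
        (mpow ρ (1 / (2 * α)) * mpow ρ (-(1 / (2 * α)))) := by
        rw [BB, DD]; simp only [Matrix.mul_assoc]
    _ = C := by rw [h1, h2, S.left, S.right]

theorem Side.BB_herm (S : Side ρ C U c r) (α : ℝ) : (BB α ρ)ᴴ = BB α ρ :=
  (mpow_posSemidef S.psd _).1

variable {ρ' C' U' : Matrix m m ℂ} {c' : m → ℝ} {r' : ℝ}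

theorem low (S : Side ρ C U c r) (S' : Side ρ' C' U' c' r') {α : ℝ} (hα : 1 ≤ α) {i : n} {j : m}
    (hi : c i ≠ 0) (hj : c' j ≠ 0) (s : ℝ) (hs : 0 ≤ s * (c i * c' j))
    (hX : (AA α ρ ⊗ₖ AA α ρ' + (s : ℂ) • (DD α ρ C ⊗ₖ DD α ρ' C')).PosSemidef) :
    r * r' * (1 + s * (c i * c' j)) ^ α ≤
      trPow α (AA α ρ ⊗ₖ AA α ρ' + (s : ℂ) • (DD α ρ C ⊗ₖ DD α ρ' C')) := by
  have hα0 : 0 < α := by linarith
  set X := AA α ρ ⊗ₖ AA α ρ' + (s : ℂ) • (DD α ρ C ⊗ₖ DD α ρ' C') with hXd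
  set t : ℝ := (trPow α X) ^ (1 / α) with ht
  have ht0 : 0 ≤ t := Real.rpow_nonneg (trPow_nonneg hX α) _
  have N0 := le_trPow hα hX
  rw [← ht] at N0
  set K := BB α ρ ⊗ₖ BB α ρ' with hK
  have hKh : Kᴴ = K := by rw [hK, conjTranspose_kronecker, S.BB_herm, S'.BB_herm]
  have N1 : (K * ((t : ℂ) • (1 : Matrix (n × m) (n × m) ℂ) - X) * K).PosSemidef := by
    have := N0.mul_mul_conjTranspose_same K
    rwa [hKh] at this
  have E1 : K * ((t : ℂ) • (1 : Matrix (n × m) (n × m) ℂ) - X) * K =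
      (t : ℂ) • (mpow ρ (-(1 / α)) ⊗ₖ mpow ρ' (-(1 / α))) -
        (mpow ρ 0 ⊗ₖ mpow ρ' 0 + (s : ℂ) • (C ⊗ₖ C')) := by
    have a1 : K * K = mpow ρ (-(1 / α)) ⊗ₖ mpow ρ' (-(1 / α)) := by
      rw [hK, ← mul_kronecker_mul, S.BBB hα0, S'.BBB hα0]
    have a2 : K * (AA α ρ ⊗ₖ AA α ρ') * K = mpow ρ 0 ⊗ₖ mpow ρ' 0 := by
      rw [hK, ← mul_kronecker_mul, ← mul_kronecker_mul, S.BAB hα0, S'.BAB hα0]
    have a3 : K * (DD α ρ C ⊗ₖ DD α ρ' C') * K = C ⊗ₖ C' := by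
      rw [hK, ← mul_kronecker_mul, ← mul_kronecker_mul, S.BDB hα0, S'.BDB hα0]
    rw [Matrix.mul_sub, Matrix.sub_mul, Matrix.mul_smul, Matrix.smul_mul, Matrix.mul_one, a1, hXd,
      Matrix.mul_add, Matrix.add_mul, a2, Matrix.mul_smul, Matrix.smul_mul, a3]
  rw [E1] at N1
  set V := U ⊗ₖ U' with hV
  have N2 := diag_re_nonneg (psd_conj' N1 V) (i, j)
  obtain ⟨b, hb0, hb1, hb⟩ := S.e2 hα0 i
  obtain ⟨b', hb0', hb1', hb'⟩ := S'.e2 hα0 j
  have conjV : ∀ (P : Matrix n n ℂ) (Q : Matrix m m ℂ),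
      Vᴴ * (P ⊗ₖ Q) * V = (Uᴴ * P * U) ⊗ₖ (U'ᴴ * Q * U') := by
    intro P Q
    rw [hV, conjTranspose_kronecker, ← mul_kronecker_mul, ← mul_kronecker_mul]
  have E2 : (Vᴴ * ((t : ℂ) • (mpow ρ (-(1 / α)) ⊗ₖ mpow ρ' (-(1 / α))) -
        (mpow ρ 0 ⊗ₖ mpow ρ' 0 + (s : ℂ) • (C ⊗ₖ C'))) * V) (i, j) (i, j) =
      ((t * (b * b') - (1 + s * (c i * c' j)) : ℝ) : ℂ) := by
    rw [Matrix.mul_sub, Matrix.sub_mul, Matrix.mul_smul, Matrix.smul_mul, Matrix.mul_add,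
      Matrix.add_mul, Matrix.mul_smul, Matrix.smul_mul, conjV, conjV, conjV, S.UCU, S'.UCU]
    simp only [Matrix.sub_apply, Matrix.add_apply, Matrix.smul_apply, kronecker_apply,
      smul_eq_mul, hb, hb', S.e1 hi, S'.e1 hj, diagonal_apply_eq]
    push_cast
    ring
  rw [E2, Complex.ofReal_re] at N2
  have hbb : b * b' ≤ r ^ (-(1 / α)) * r' ^ (-(1 / α)) :=
    mul_le_mul hb1 hb1' hb0' (Real.rpow_nonneg S.r_pos.le _)
  have hR : 0 < r * r' := mul_pos S.r_pos S'.r_pos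
  have h1 : 1 + s * (c i * c' j) ≤ t * (r * r') ^ (-(1 / α)) := by
    rw [Real.mul_rpow S.r_pos.le S'.r_pos.le]
    nlinarith [mul_le_mul_of_nonneg_left hbb ht0]
  have h2 : (1 + s * (c i * c' j)) ^ α ≤ (t * (r * r') ^ (-(1 / α))) ^ α :=
    Real.rpow_le_rpow (by linarith) h1 hα0.le
  have h3 : (t * (r * r') ^ (-(1 / α))) ^ α = trPow α X * (r * r')⁻¹ := by
    rw [Real.mul_rpow ht0 (Real.rpow_nonneg hR.le _), ht, ← Real.rpow_mul (trPow_nonneg hX α),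
      ← Real.rpow_mul hR.le, one_div_mul_cancel hα0.ne', Real.rpow_one, neg_mul,
      one_div_mul_cancel hα0.ne', Real.rpow_neg_one]
  rw [h3] at h2
  calc r * r' * (1 + s * (c i * c' j)) ^ α ≤ r * r' * (trPow α X * (r * r')⁻¹) :=
        mul_le_mul_of_nonneg_left h2 hR.le
    _ = trPow α X := by
        rw [mul_comm (trPow α X), ← mul_assoc, mul_inv_cancel₀ hR.ne', one_mul]

/-- upper bound -/
theorem up (S : Side ρ C U c r) {α k : ℝ} (hα : 1 ≤ α) (hk : ∀ i, |c i| ≤ k)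
    (hn : trPow α (AA α ρ) = 1) (s : ℝ) (hs : |s| ≤ 1) (hk0 : 0 ≤ k)
    (hX : (AA α ρ + (s : ℂ) • DD α ρ C).PosSemidef) :
    trPow α (AA α ρ + (s : ℂ) • DD α ρ C) ≤ (1 + k) ^ α := by
  have hA : (AA α ρ).PosSemidef := mpow_posSemidef S.psd _
  have hk1 : 0 < 1 + k := by linarith
  have hY : (((1 + k : ℝ) : ℂ) • AA α ρ).PosSemidef := by
    refine hA.smul ?_
    exact_mod_cast hk1.le
  have e := trPow_smul hA hk1 α
  rw [hn, mul_one] at e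
  rw [← e]
  refine trPow_mono hα hX hY ?_
  have hα0 : 0 < α := by linarith
  have hAA : AA α ρ = mpow ρ (1 / (2 * α)) * mpow ρ (1 / (2 * α)) := by
    rw [AA, ← mpow_add S.psd]; congr 1; field_simp; ring
  have hP : (((k : ℝ) : ℂ) • (1 : Matrix n n ℂ) - (s : ℂ) • C).PosSemidef := by
    have : (s : ℂ) • C = U * diagonal (fun i => ((s * c i : ℝ) : ℂ)) * Uᴴ := by
      rw [S.eq, ← Matrix.smul_mul, ← Matrix.mul_smul, ← diagonal_smul]
      congr 3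
      funext i
      simp
    rw [this, smul_one_sub_eq U S.hU']
    refine posSemidef_conj_diagonal U fun i => ?_
    have h1 : |s * c i| ≤ k := by
      rw [abs_mul]
      calc |s| * |c i| ≤ 1 * k := mul_le_mul hs (hk i) (abs_nonneg _) (by norm_num)
        _ = k := one_mul k
    have := (abs_le.1 h1).2
    linarith
  have h := sandwich_posSemidef S.psd hP (1 / (2 * α))
  have e2 : mpow ρ (1 / (2 * α)) * (((k : ℝ) : ℂ) • (1 : Matrix n n ℂ) - (s : ℂ) • C) *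
      mpow ρ (1 / (2 * α)) =
      ((1 + k : ℝ) : ℂ) • AA α ρ - (AA α ρ + (s : ℂ) • DD α ρ C) := by
    rw [Matrix.mul_sub, Matrix.sub_mul, Matrix.mul_smul, Matrix.smul_mul, Matrix.mul_one, ← hAA,
      Matrix.mul_smul, Matrix.smul_mul, DD]
    push_cast
    rw [add_smul, one_smul]
    abel
  rwa [e2] at h

end Pool.Agent.Lib_helper43.LA
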