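import Mathlib
import Pool.Agent.Lib_helper43.LA.Low

set_option autoImplicit false
set_option linter.unusedSectionVars false

open scoped Kronecker ComplexOrder

namespace Pool.Agent.Lib_helper43.LA

open Matrix Pool.Agent.Lib_helper98.Renyi Filter Topology

variable {n : Type*} [Fintype n] [DecidableEq n]

/-- `C = ρ^(-1/2) δ ρ^(-1/2)`. -/
noncomputable def CC (σ : Fin 2 → Matrix n n ℂ) : Matrix n n ℂ :=
  mpow (rhoOf σ) (-(1 / 2)) * delOf σ * mpow (rhoOf σ) (-(1 / 2))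

theorem DD_eq {σ : Fin 2 → Matrix n n ℂ} (h : ∀ x, IsDensity (σ x)) {α : ℝ} (hα : 0 < α) :
    DD α (rhoOf σ) (CC σ) = Dop α σ := by
  have hρ := rhoOf_posSemidef h
  have e : (1 - α) / (2 * α) = 1 / (2 * α) + -(1 / 2) := by field_simp; ring
  have e' : (1 - α) / (2 * α) = -(1 / 2) + 1 / (2 * α) := by rw [e]; ring
  have g1 : mpow (rhoOf σ) ((1 - α) / (2 * α)) =
      mpow (rhoOf σ) (1 / (2 * α)) * mpow (rhoOf σ) (-(1 / 2)) := by rw [e, mpow_add hρ]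
  have g2 : mpow (rhoOf σ) ((1 - α) / (2 * α)) =
      mpow (rhoOf σ) (-(1 / 2)) * mpow (rhoOf σ) (1 / (2 * α)) := by rw [e', mpow_add hρ]
  rw [Dop]
  conv_rhs => rw [g2]
  conv_rhs => rw [← g2, g1]
  rw [← g1, DD, CC]
  calc mpow (rhoOf σ) (1 / (2 * α)) * (mpow (rhoOf σ) (-(1 / 2)) * delOf σ *
        mpow (rhoOf σ) (-(1 / 2))) * mpow (rhoOf σ) (1 / (2 * α))
      = (mpow (rhoOf σ) (1 / (2 * α)) * mpow (rhoOf σ) (-(1 / 2))) * delOf σ *
        (mpow (rhoOf σ) (-(1 / 2)) * mpow (rhoOf σ) (1 / (2 * α))) := by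
        simp only [Matrix.mul_assoc]
    _ = _ := by rw [← g1, ← g2]

theorem CC_herm {σ : Fin 2 → Matrix n n ℂ} (h : ∀ x, IsDensity (σ x)) : (CC σ).IsHermitian := by
  have hd : (delOf σ).IsHermitian := by
    have h0 := (h 0).1.1
    have h1 := (h 1).1.1
    rw [Matrix.IsHermitian, delOf, conjTranspose_smul, conjTranspose_sub, h0.eq, h1.eq]
    congr 1
    simp
  have := isHermitian_mul_mul_conjTranspose (mpow (rhoOf σ) (-(1 / 2))) hd
  rwa [mpow_isHermitian (rhoOf_posSemidef h)] at this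

theorem exists_side {σ : Fin 2 → Matrix n n ℂ} (h : ∀ x, IsDensity (σ x)) :
    ∃ (U : Matrix n n ℂ) (c : n → ℝ) (r : ℝ), Side (rhoOf σ) (CC σ) U c r := by
  have hρ := rhoOf_posSemidef h
  obtain ⟨U, c, hU, hU', e⟩ := exists_spectral (CC_herm h)
  obtain ⟨r, hr, hr'⟩ := exists_r hρ
  have h1 : mpow (rhoOf σ) 0 * mpow (rhoOf σ) (-(1 / 2)) = mpow (rhoOf σ) (-(1 / 2)) := by
    rw [← mpow_add hρ, zero_add]
  have h2 : mpow (rhoOf σ) (-(1 / 2)) * mpow (rhoOf σ) 0 = mpow (rhoOf σ) (-(1 / 2)) := by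
    rw [← mpow_add hρ, add_zero]
  refine ⟨U, c, r, hρ, ?_, ?_, hU, hU', e, hr, hr'⟩
  · rw [CC, ← Matrix.mul_assoc, ← Matrix.mul_assoc, h1]
  · rw [CC, Matrix.mul_assoc, h2]

theorem entry_eq (W M : Matrix n n ℂ) (i : n) :
    (Wᴴ * M * W) i i = star (W *ᵥ Pi.single i 1) ⬝ᵥ (M *ᵥ (W *ᵥ Pi.single i 1)) := by
  rw [mulVec_mulVec, Matrix.mul_assoc, Matrix.mul_apply, dotProduct]
  refine Finset.sum_congr rfl fun j _ => ?_
  rw [conjTranspose_apply]
  simp [Matrix.col_apply]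

theorem sandwich_half {σ : Fin 2 → Matrix n n ℂ} (h : ∀ x, IsDensity (σ x)) :
    mpow (rhoOf σ) (-(1 / 2)) * σ 0 * mpow (rhoOf σ) (-(1 / 2)) = mpow (rhoOf σ) 0 + CC σ ∧
    mpow (rhoOf σ) (-(1 / 2)) * σ 1 * mpow (rhoOf σ) (-(1 / 2)) = mpow (rhoOf σ) 0 - CC σ := by
  have hρ := rhoOf_posSemidef h
  have e : mpow (rhoOf σ) (-(1 / 2)) * rhoOf σ * mpow (rhoOf σ) (-(1 / 2)) = mpow (rhoOf σ) 0 := by
    have h1 : mpow (rhoOf σ) (-(1 / 2)) * rhoOf σ * mpow (rhoOf σ) (-(1 / 2)) =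
        mpow (rhoOf σ) (-(1 / 2)) * mpow (rhoOf σ) 1 * mpow (rhoOf σ) (-(1 / 2)) := by
      rw [mpow_one hρ]
    rw [h1, ← mpow_add hρ, ← mpow_add hρ]
    congr 1
    ring
  constructor
  · rw [← e, CC, ← Matrix.add_mul, ← Matrix.mul_add, rho_add_del]
  · rw [← e, CC, ← Matrix.sub_mul, ← Matrix.mul_sub, rho_sub_del]

theorem abs_lt_one {σ : Fin 2 → Matrix n n ℂ} (h : ∀ x, IsDensity (σ x))
    (hk : ∀ v, σ 0 *ᵥ v = 0 ↔ σ 1 *ᵥ v = 0) {U : Matrix n n ℂ} {c : n → ℝ} {r : ℝ}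
    (S : Side (rhoOf σ) (CC σ) U c r) (i : n) : |c i| < 1 := by
  rcases eq_or_ne (c i) 0 with h0 | h0
  · rw [h0]; simp
  have hρ := rhoOf_posSemidef h
  set B := mpow (rhoOf σ) (-(1 / 2)) with hB
  have hBh : Bᴴ = B := mpow_isHermitian hρ _
  obtain ⟨s0, s1⟩ := sandwich_half h
  set w := (B * U) *ᵥ Pi.single i 1 with hw
  have en : ∀ M : Matrix n n ℂ, (Uᴴ * (B * M * B) * U) i i = star w ⬝ᵥ (M *ᵥ w) := by
    intro M
    rw [hw, ← entry_eq, conjTranspose_mul, hBh]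
    simp only [Matrix.mul_assoc]
  have d : (Uᴴ * CC σ * U) i i = (c i : ℂ) := by rw [S.UCU, diagonal_apply_eq]
  have q0 : star w ⬝ᵥ (σ 0 *ᵥ w) = 1 + (c i : ℂ) := by
    rw [← en, s0, Matrix.mul_add, Matrix.add_mul, Matrix.add_apply, S.e1 h0, d]
  have q1 : star w ⬝ᵥ (σ 1 *ᵥ w) = 1 - (c i : ℂ) := by
    rw [← en, s1, Matrix.mul_sub, Matrix.sub_mul, Matrix.sub_apply, S.e1 h0, d]
  have p0 : 0 ≤ 1 + c i := by
    have := (h 0).1.dotProduct_mulVec_nonneg w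
    rw [q0] at this
    have := (Complex.le_def.1 this).1
    simpa using this
  have p1 : 0 ≤ 1 - c i := by
    have := (h 1).1.dotProduct_mulVec_nonneg w
    rw [q1] at this
    have := (Complex.le_def.1 this).1
    simpa using this
  have n0 : 1 + c i ≠ 0 := by
    intro hz
    have hz' : (1 : ℂ) + (c i : ℂ) = 0 := by exact_mod_cast hz
    rw [hz'] at q0
    have a := ((h 0).1.dotProduct_mulVec_zero_iff w).1 q0
    have b := (hk w).1 a
    rw [b, dotProduct_zero] at q1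
    have : (0 : ℝ) = 1 - c i := by exact_mod_cast q1
    linarith
  have n1 : 1 - c i ≠ 0 := by
    intro hz
    have hz' : (1 : ℂ) - (c i : ℂ) = 0 := by exact_mod_cast hz
    rw [hz'] at q1
    have a := ((h 1).1.dotProduct_mulVec_zero_iff w).1 q1
    have b := (hk w).2 a
    rw [b, dotProduct_zero] at q0
    have : (0 : ℝ) = 1 + c i := by exact_mod_cast q0
    linarith
  rw [abs_lt]
  constructor
  · have := lt_of_le_of_ne p0 (Ne.symm n0); linarith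
  · have := lt_of_le_of_ne p1 (Ne.symm n1); linarith

theorem nonempty_of {σ : Fin 2 → Matrix n n ℂ} (h : ∀ x, IsDensity (σ x)) : Nonempty n := by
  by_contra hn
  rw [not_nonempty_iff] at hn
  have := (h 0).2
  rw [Matrix.trace] at this
  simp at this

theorem eventually_crit {R c c' : ℝ} (hR : 0 < R) (hc : 0 < c) (hc' : 0 < c') (h1 : c < 1)
    (h1' : c' < 1) : ∀ᶠ α : ℝ in atTop,
    ((1 + c) ^ α) * ((1 + c') ^ α) ≤ (2 ^ (α - 1) - 1) * (R * (1 + c * c') ^ α / 2 - 1) := by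
  have hA : 0 < 1 + c * c' := by positivity
  have hb : 0 < (1 + c) * (1 + c') / 2 := by positivity
  have hlt : (1 + c) * (1 + c') / 2 / (1 + c * c') < 1 := by
    rw [div_lt_one hA]
    nlinarith [mul_pos (sub_pos.2 h1) (sub_pos.2 h1')]
  have hlt2 : 1 / (1 + c * c') < 1 := by
    rw [div_lt_one hA]
    nlinarith [mul_pos hc hc']
  have t1 := tendsto_rpow_atTop_of_base_lt_one ((1 + c) * (1 + c') / 2 / (1 + c * c'))
    (by have : 0 < (1 + c) * (1 + c') / 2 / (1 + c * c') := by positivity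
        linarith) hlt
  have t2 := tendsto_rpow_atTop_of_base_lt_one (1 / (1 + c * c'))
    (by have : 0 < 1 / (1 + c * c') := by positivity
        linarith) hlt2
  have e1 := t1.eventually (gt_mem_nhds (show (0 : ℝ) < R / 16 by positivity))
  have e2 := t2.eventually (gt_mem_nhds (show (0 : ℝ) < R / 16 by positivity))
  filter_upwards [e1, e2, eventually_ge_atTop (2 : ℝ)] with α g1 g2 g3
  rw [Real.div_rpow hb.le hA.le, div_lt_iff₀ (Real.rpow_pos_of_pos hA _)] at g1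
  rw [Real.div_rpow (by norm_num) hA.le, Real.one_rpow,
    div_lt_iff₀ (Real.rpow_pos_of_pos hA _)] at g2
  set X := (1 + c * c') ^ α with hX
  set Y := ((1 + c) * (1 + c') / 2) ^ α with hY
  have e3 : (1 + c) ^ α * (1 + c') ^ α = 2 ^ α * Y := by
    rw [hY, ← Real.mul_rpow (by positivity) (by positivity),
      ← Real.mul_rpow (by norm_num) hb.le]
    congr 1
    ring
  have e4 : (2 : ℝ) ^ (α - 1) = 2 ^ α / 2 := by rw [Real.rpow_sub (by norm_num), Real.rpow_one]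
  have e5 : (4 : ℝ) ≤ 2 ^ α := by
    calc (4 : ℝ) = 2 ^ (2 : ℝ) := by norm_num
      _ ≤ 2 ^ α := Real.rpow_le_rpow_of_exponent_le (by norm_num) g3
  rw [e3, e4]
  have hX0 : 0 < X := Real.rpow_pos_of_pos hA _
  have hY0 : 0 < Y := Real.rpow_pos_of_pos hb _
  -- 2^α/2 - 1 ≥ 2^α/4, R X/2 - 1 ≥ R X / 4 ≥ 4 Y
  have k1 : (2 : ℝ) ^ α / 4 ≤ 2 ^ α / 2 - 1 := by linarith
  have k2 : 4 * Y ≤ R * X / 2 - 1 := by nlinarith
  calc (2 : ℝ) ^ α * Y = 2 ^ α / 4 * (4 * Y) := by ring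
    _ ≤ (2 ^ α / 2 - 1) * (R * X / 2 - 1) :=
        mul_le_mul k1 k2 (by positivity) (by linarith)

variable {b₁ b₂ : Type*} [Fintype b₁] [DecidableEq b₁] [Fintype b₂] [DecidableEq b₂]

theorem Gfun_zero_right {A : Matrix n n ℂ} (α : ℝ) : Gfun α A 0 = 0 := by
  rw [Gfun, add_zero, sub_zero]; ring

theorem Dop_zero {σ : Fin 2 → Matrix n n ℂ} (h : ∀ x, IsDensity (σ x)) {U : Matrix n n ℂ}
    {c : n → ℝ} {r : ℝ} (S : Side (rhoOf σ) (CC σ) U c r) (hc : ∀ i, c i = 0) {α : ℝ}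
    (hα : 0 < α) : Dop α σ = 0 := by
  have : CC σ = 0 := by
    rw [S.eq]
    have : (fun i => (c i : ℂ)) = fun _ => 0 := by funext i; simp [hc i]
    rw [this]
    simp
  rw [← DD_eq h hα, DD, this]
  simp

theorem large (σ₁ : Fin 2 → Matrix b₁ b₁ ℂ) (σ₂ : Fin 2 → Matrix b₂ b₂ ℂ)
    (h₁ : ∀ x, IsDensity (σ₁ x)) (h₂ : ∀ x, IsDensity (σ₂ x))
    (k₁ : ∀ v, σ₁ 0 *ᵥ v = 0 ↔ σ₁ 1 *ᵥ v = 0) (k₂ : ∀ v, σ₂ 0 *ᵥ v = 0 ↔ σ₂ 1 *ᵥ v = 0) :
    ∃ α₀ : ℝ, ∀ α : ℝ, α₀ ≤ α → Hsum α σ₁ σ₂ ≤ Fval α σ₁ σ₂ := by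
  obtain ⟨U, c, r, S⟩ := exists_side h₁
  obtain ⟨U', c', r', S'⟩ := exists_side h₂
  have := nonempty_of h₁
  have := nonempty_of h₂
  obtain ⟨i, hi⟩ := Finite.exists_max fun i => |c i|
  obtain ⟨j, hj⟩ := Finite.exists_max fun j => |c' j|
  rcases eq_or_ne (c i) 0 with h0 | h0
  · refine ⟨2, fun α hα => Hsum_le_Fval h₁ h₂ (by linarith) (by linarith) ?_⟩
    have hz : ∀ k, c k = 0 := fun k => by
      have := hi k
      rw [h0, abs_zero] at this
      exact abs_eq_zero.1 (le_antisymm this (abs_nonneg _))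
    rw [Dop_zero h₁ S hz (by linarith), zero_kronecker, Gfun_zero_right, Gfun_zero_right]
    simp
  rcases eq_or_ne (c' j) 0 with h0' | h0'
  · refine ⟨2, fun α hα => Hsum_le_Fval h₁ h₂ (by linarith) (by linarith) ?_⟩
    have hz : ∀ k, c' k = 0 := fun k => by
      have := hj k
      rw [h0', abs_zero] at this
      exact abs_eq_zero.1 (le_antisymm this (abs_nonneg _))
    rw [Dop_zero h₂ S' hz (by linarith), kronecker_zero, Gfun_zero_right, Gfun_zero_right]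
    simp
  have hR : 0 < r * r' := mul_pos S.r_pos S'.r_pos
  have ev := eventually_crit hR (abs_pos.2 h0) (abs_pos.2 h0') (abs_lt_one h₁ k₁ S i)
    (abs_lt_one h₂ k₂ S' j)
  obtain ⟨α₀, hα₀⟩ := (ev.and (eventually_ge_atTop (2 : ℝ))).exists_forall_of_atTop
  refine ⟨α₀, fun α hα => ?_⟩
  obtain ⟨hcrit, h2⟩ := hα₀ α hα
  have hα1 : 1 ≤ α := by linarith
  have hα0 : 0 < α := by linarith
  refine Hsum_le_Fval h₁ h₂ hα0 (by linarith) ?_
  have adm₁ := adm_of_density h₁ hα0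
  have adm₂ := adm_of_density h₂ hα0
  have adm := adm₁.kron adm₂
  have D1 := DD_eq h₁ hα0
  have D2 := DD_eq h₂ hα0
  have A1 : AA α (rhoOf σ₁) = Aop α σ₁ := rfl
  have A2 : AA α (rhoOf σ₂) = Aop α σ₂ := rfl
  -- upper bounds
  have up1 : Gfun α (Aop α σ₁) (Dop α σ₁) ≤ (1 + |c i|) ^ α := by
    have n1 := trPow_Aop h₁ hα0
    have a := up S hα1 hi (by rw [A1]; exact n1) 1 (by simp) (abs_nonneg _)
      (by rw [A1, D1, Complex.ofReal_one, one_smul]; exact adm₁.add)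
    have b := up S hα1 hi (by rw [A1]; exact n1) (-1) (by simp) (abs_nonneg _)
      (by rw [A1, D1]; push_cast; rw [neg_smul, one_smul, ← sub_eq_add_neg]; exact adm₁.sub)
    rw [A1, D1, Complex.ofReal_one, one_smul] at a
    rw [A1, D1] at b
    push_cast at b
    rw [neg_smul, one_smul, ← sub_eq_add_neg] at b
    rw [Gfun, n1]
    linarith
  have up2 : Gfun α (Aop α σ₂) (Dop α σ₂) ≤ (1 + |c' j|) ^ α := by
    have n1 := trPow_Aop h₂ hα0
    have a := up S' hα1 hj (by rw [A2]; exact n1) 1 (by simp) (abs_nonneg _)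
      (by rw [A2, D2, Complex.ofReal_one, one_smul]; exact adm₂.add)
    have b := up S' hα1 hj (by rw [A2]; exact n1) (-1) (by simp) (abs_nonneg _)
      (by rw [A2, D2]; push_cast; rw [neg_smul, one_smul, ← sub_eq_add_neg]; exact adm₂.sub)
    rw [A2, D2, Complex.ofReal_one, one_smul] at a
    rw [A2, D2] at b
    push_cast at b
    rw [neg_smul, one_smul, ← sub_eq_add_neg] at b
    rw [Gfun, n1]
    linarith
  have g1 := Gfun_nonneg hα1 adm₁.psd adm₁.add adm₁.sub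
  have g2 := Gfun_nonneg hα1 adm₂.psd adm₂.add adm₂.sub
  -- lower bound
  have hn := trPow_kron adm₁.psd adm₂.psd (trPow_Aop h₁ hα0) (trPow_Aop h₂ hα0)
  have lo : r * r' * (1 + |c i| * |c' j|) ^ α / 2 - 1 ≤
      Gfun α (Aop α σ₁ ⊗ₖ Aop α σ₂) (Dop α σ₁ ⊗ₖ Dop α σ₂) := by
    rw [Gfun, hn, ← abs_mul]
    have pa := trPow_nonneg adm.add α
    have pb := trPow_nonneg adm.sub α
    rcases le_total 0 (c i * c' j) with hs | hs
    · have l := low S S' hα1 h0 h0' 1 (by rwa [one_mul])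
        (by rw [A1, A2, D1, D2, Complex.ofReal_one, one_smul]; exact adm.add)
      rw [A1, A2, D1, D2, Complex.ofReal_one, one_smul, one_mul] at l
      rw [abs_of_nonneg hs]
      linarith
    · have l := low S S' hα1 h0 h0' (-1) (by linarith)
        (by rw [A1, A2, D1, D2]; push_cast; rw [neg_smul, one_smul, ← sub_eq_add_neg]
            exact adm.sub)
      rw [A1, A2, D1, D2] at l
      push_cast at l
      rw [neg_smul, one_smul, ← sub_eq_add_neg, neg_one_mul] at l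
      rw [abs_of_nonpos hs]
      linarith
  have k0 : 0 ≤ (2 : ℝ) ^ (α - 1) - 1 := by
    have : (1 : ℝ) ≤ 2 ^ (α - 1) := Real.one_le_rpow (by norm_num) (by linarith)
    linarith
  calc Gfun α (Aop α σ₁) (Dop α σ₁) * Gfun α (Aop α σ₂) (Dop α σ₂)
      ≤ (1 + |c i|) ^ α * (1 + |c' j|) ^ α :=
        mul_le_mul up1 up2 g2 (by positivity)
    _ ≤ (2 ^ (α - 1) - 1) * (r * r' * (1 + |c i| * |c' j|) ^ α / 2 - 1) := hcrit
    _ ≤ _ := mul_le_mul_of_nonneg_left lo k0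

end Pool.Agent.Lib_helper43.LA
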