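import Mathlib
import Pool.Agent.Lib_helper43.LA.Main

set_option autoImplicit false
set_option linter.unusedSectionVars false

open scoped Kronecker ComplexOrder

namespace Pool.Agent.Lib_helper43.LA

open Matrix Pool.Agent.Lib_helper98.Renyi Filter Topology

variable {n m : Type*} [Fintype n] [DecidableEq n] [Fintype m] [DecidableEq m]

/-- `ρ ≥ 0`, `C` lives on the support of `ρ`, `-Π ≤ C ≤ Π` (`Π = mpow ρ 0`). -/
structure Pr (ρ C : Matrix n n ℂ) : Prop where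
  psd : ρ.PosSemidef
  herm : C.IsHermitian
  left : mpow ρ 0 * C = C
  right : C * mpow ρ 0 = C
  add : (mpow ρ 0 + C).PosSemidef
  sub : (mpow ρ 0 - C).PosSemidef

/-- The defect of the key inequality. -/
noncomputable def Lam (p : ℝ) (ρ C : Matrix n n ℂ) (ρ' C' : Matrix m m ℂ) : ℝ :=
  (2 ^ (p - 1) - 1) * Gfun p (AA p ρ ⊗ₖ AA p ρ') (DD p ρ C ⊗ₖ DD p ρ' C') -
    Gfun p (AA p ρ) (DD p ρ C) * Gfun p (AA p ρ') (DD p ρ' C')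

/-- target of block SWAP -/
def SwapTarget : Prop := ∀ (n m : Type) [Fintype n] [DecidableEq n] [Fintype m] [DecidableEq m]
  (p : ℝ) (ρ C : Matrix n n ℂ) (ρ' C' : Matrix m m ℂ), Pr ρ C → Pr ρ' C' →
    0 < p → Lam p ρ C ρ' C' = Lam p ρ' C' ρ C

/-- target of block PEEL -/
def PeelTarget : Prop := ∀ (n m : Type) [Fintype n] [DecidableEq n] [Fintype m] [DecidableEq m]
  (ρ C : Matrix n n ℂ) (ρ' C' : Matrix m m ℂ), Pr ρ C → Pr ρ' C' →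
  ∀ (f : n → ℂ) (η s : ℝ), star f ⬝ᵥ f = 1 → 0 < η → (s = 1 ∨ s = -1) →
    ρ *ᵥ f = (η : ℂ) • f → C *ᵥ f = (s : ℂ) • f →
    ∃ ρ₁ C₁ : Matrix n n ℂ, Pr ρ₁ C₁ ∧ ρ₁.rank < ρ.rank ∧
      ∀ p : ℝ, 1 ≤ p → Lam p ρ C ρ' C' = Lam p ρ₁ C₁ ρ' C'

/-- target of block NR -/
def NRTarget : Prop := ∀ (n : Type) [Fintype n] [DecidableEq n] (ρ C : Matrix n n ℂ), Pr ρ C →
  ∀ (χ : n → ℂ), χ ≠ 0 → C *ᵥ χ = χ →
    (∀ (f : n → ℂ) (η : ℝ), 0 < η → f ≠ 0 → ρ *ᵥ f = (η : ℂ) • f → C *ᵥ f ≠ f) →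
    ∃ ε : ℝ, 0 < ε ∧ ∀ᶠ p : ℝ in atTop,
      2 ^ p * ε / p ^ 2 ≤ (trace (mpow (AA p ρ + DD p ρ C) (p - 1) *
        (AA p ρ - DD p ρ C))).re

end Pool.Agent.Lib_helper43.LA
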