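import Mathlib
import Pool.Agent.Lib_helper43.LA.Defs2

set_option autoImplicit false
set_option linter.unusedSectionVars false

open scoped Kronecker ComplexOrder

namespace Pool.Agent.Lib_helper43.LA

open Matrix Pool.Agent.Lib_helper98.Renyi Filter Topology

variable {n m : Type*} [Fintype n] [DecidableEq n] [Fintype m] [DecidableEq m]

theorem jensen_entry {q : ℝ} (hq : 1 ≤ q) {U Z : Matrix n n ℂ} (hZ : Z.PosSemidef)
    (hU : Uᴴ * U = 1) (_hU' : U * Uᴴ = 1) (i : n) :
    supPow q ((Uᴴ * Z * U) i i).re ≤ ((Uᴴ * mpow Z q * U) i i).re := by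
  obtain ⟨V, p, hV, hV', hp, rfl⟩ := exists_spectral_nonneg hZ
  set X : Matrix n n ℂ := Uᴴ * V with hX
  have hXX : X * Xᴴ = 1 := by
    rw [hX, conjTranspose_mul, conjTranspose_conjTranspose, Matrix.mul_assoc,
      ← Matrix.mul_assoc V, hV', Matrix.one_mul, hU]
  have key : ∀ g : n → ℝ, (Uᴴ * (V * diagonal (fun i => (g i : ℂ)) * Vᴴ) * U) i i =
      ((∑ j, Complex.normSq (X i j) * g j : ℝ) : ℂ) := by
    intro g
    rw [← conj_diag_entry X g i, hX, conjTranspose_mul, conjTranspose_conjTranspose]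
    simp only [Matrix.mul_assoc]
  rw [mpow_conj_diagonal _ V hV, key p, key fun i => supPow q (p i), Complex.ofReal_re,
    Complex.ofReal_re]
  have := (supPow_convexOn hq).map_sum_le (t := Finset.univ)
    (w := fun j => Complex.normSq (X i j)) (p := p)
    (fun j _ => Complex.normSq_nonneg _) (normSq_row_sum hXX i) (fun j _ => hp j)
  simpa [smul_eq_mul] using this

theorem bern {x y q : ℝ} (hx : 0 ≤ x) (hy : 0 ≤ y) (hq : 1 ≤ q) :
    x ^ (q + 1) + q * (x ^ q * y) ≤ x * (x + y) ^ q := by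
  rcases eq_or_lt_of_le hx with h0 | h0
  · rw [← h0, Real.zero_rpow (by linarith), Real.zero_rpow (by linarith)]
    simp
  · have h1 := one_add_mul_self_le_rpow_one_add (s := y / x)
      (by have : 0 ≤ y / x := by positivity
          linarith) hq
    have h2 : (x + y) ^ q = x ^ q * (1 + y / x) ^ q := by
      rw [← Real.mul_rpow hx (by positivity)]
      congr 1
      field_simp
    rw [h2, Real.rpow_add h0, Real.rpow_one]
    have h3 : x ^ q * x * (1 + q * (y / x)) ≤ x ^ q * x * (1 + y / x) ^ q :=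
      mul_le_mul_of_nonneg_left h1 (by positivity)
    have h4 : x ^ q * x * (1 + q * (y / x)) = x ^ q * x + q * (x ^ q * y) := by
      field_simp
    linarith

theorem half_add {q : ℝ} (hq : 1 ≤ q) {X Y : Matrix n n ℂ} (hX : X.PosSemidef)
    (hY : Y.PosSemidef) :
    trPow (q + 1) X + q * (trace (mpow X q * Y)).re ≤ (trace (X * mpow (X + Y) q)).re := by
  obtain ⟨U, x, hU, hU', hx, e⟩ := exists_spectral_nonneg hX
  have tr1 : ∀ (g : n → ℝ) (Z : Matrix n n ℂ),
      (trace (U * diagonal (fun i => (g i : ℂ)) * Uᴴ * Z)).re =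
        ∑ i, g i * ((Uᴴ * Z * U) i i).re := by
    intro g Z
    have : trace (U * diagonal (fun i => (g i : ℂ)) * Uᴴ * Z) =
        trace (diagonal (fun i => (g i : ℂ)) * (Uᴴ * Z * U)) := by
      rw [Matrix.mul_assoc, Matrix.mul_assoc, trace_mul_comm]
      simp only [Matrix.mul_assoc]
    rw [this, trace, Complex.re_sum]
    refine Finset.sum_congr rfl fun i _ => ?_
    rw [diag_apply, diagonal_mul, Complex.re_ofReal_mul]
  have hy : ∀ i, 0 ≤ ((Uᴴ * Y * U) i i).re := fun i => diag_re_nonneg (psd_conj' hY U) i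
  have hxy : ∀ i, ((Uᴴ * (X + Y) * U) i i).re = x i + ((Uᴴ * Y * U) i i).re := by
    intro i
    have e2 : Uᴴ * X * U = diagonal (fun i => (x i : ℂ)) := by
      calc Uᴴ * X * U = Uᴴ * (U * diagonal (fun i => (x i : ℂ)) * Uᴴ) * U := by rw [← e]
        _ = (Uᴴ * U) * diagonal (fun i => (x i : ℂ)) * (Uᴴ * U) := by
            simp only [Matrix.mul_assoc]
        _ = _ := by rw [hU, Matrix.one_mul, Matrix.mul_one]
    rw [Matrix.mul_add, Matrix.add_mul, e2, Matrix.add_apply, diagonal_apply_eq,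
      Complex.add_re, Complex.ofReal_re]
  have l1 : trPow (q + 1) X = ∑ i, x i ^ (q + 1) := by
    rw [e, trPow_conj_diagonal _ U hU]
    exact Finset.sum_congr rfl fun i _ => supPow_of_pos_exp (by linarith)
  have l2 : (trace (mpow X q * Y)).re = ∑ i, x i ^ q * ((Uᴴ * Y * U) i i).re := by
    rw [e, mpow_conj_diagonal _ U hU, tr1]
    exact Finset.sum_congr rfl fun i _ => by rw [supPow_of_pos_exp (by linarith)]
  have l3 : (trace (X * mpow (X + Y) q)).re =
      ∑ i, x i * ((Uᴴ * mpow (X + Y) q * U) i i).re := by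
    conv_lhs => rw [e]
    rw [tr1, ← e]
  rw [l1, l2, l3, Finset.mul_sum, ← Finset.sum_add_distrib]
  refine Finset.sum_le_sum fun i _ => ?_
  have j := jensen_entry hq (hX.add hY) hU hU' i
  rw [hxy i, supPow_of_pos_exp (by linarith)] at j
  exact (bern (hx i) (hy i) hq).trans (mul_le_mul_of_nonneg_left j (hx i))

theorem superadd {p : ℝ} (hp : 2 ≤ p) {X Y : Matrix n n ℂ} (hX : X.PosSemidef)
    (hY : Y.PosSemidef) :
    trPow p X + trPow p Y + (p - 1) * ((trace (mpow X (p - 1) * Y)).re +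
      (trace (mpow Y (p - 1) * X)).re) ≤ trPow p (X + Y) := by
  have h1 := half_add (q := p - 1) (by linarith) hX hY
  have h2 := half_add (q := p - 1) (by linarith) hY hX
  rw [sub_add_cancel] at h1 h2
  rw [add_comm Y X] at h2
  have h3 : trPow p (X + Y) = (trace (X * mpow (X + Y) (p - 1))).re +
      (trace (Y * mpow (X + Y) (p - 1))).re := by
    have : mpow (X + Y) p = (X + Y) * mpow (X + Y) (p - 1) := by
      conv_lhs => rw [show p = 1 + (p - 1) by ring, mpow_add (hX.add hY), mpow_one (hX.add hY)]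
    rw [trPow, this, Matrix.add_mul, trace_add, Complex.add_re]
  rw [h3]
  linarith

theorem trPow_kron_mul {A : Matrix n n ℂ} {B : Matrix m m ℂ} (hA : A.PosSemidef)
    (hB : B.PosSemidef) (p : ℝ) : trPow p (A ⊗ₖ B) = trPow p A * trPow p B := by
  have ha := (mpow_posSemidef hA p).trace_nonneg
  rw [trPow, mpow_kronecker hA hB, trace_kronecker, Complex.mul_re,
    ← (Complex.le_def.1 ha).2, trPow, trPow]
  simp

theorem im_trace_mul {X Y : Matrix n n ℂ} (hX : Xᴴ = X) (hY : Yᴴ = Y) :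
    (trace (X * Y)).im = 0 := by
  have h : star (trace (X * Y)) = trace (X * Y) := by
    rw [← trace_conjTranspose, conjTranspose_mul, hX, hY, trace_mul_comm]
  exact Complex.conj_eq_iff_im.1 h

/-- `e(M,N) = Tr M^(p-1) N`. -/
noncomputable def ee (p : ℝ) (M N : Matrix n n ℂ) : ℝ := (trace (mpow M (p - 1) * N)).re

theorem ee_nonneg {p : ℝ} {M N : Matrix n n ℂ} (hM : M.PosSemidef) (hN : N.PosSemidef) :
    0 ≤ ee p M N := rt_mul_nonneg (mpow_posSemidef hM _) hN

theorem ee_kron {p : ℝ} {M N : Matrix n n ℂ} {M' N' : Matrix m m ℂ} (hM : M.PosSemidef)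
    (hN : N.PosSemidef) (hM' : M'.PosSemidef) :
    ee p (M ⊗ₖ M') (N ⊗ₖ N') = ee p M N * ee p M' N' := by
  rw [ee, mpow_kronecker hM hM', ← mul_kronecker_mul]
  exact rt_kron (im_trace_mul (mpow_posSemidef hM _).1 hN.1)

/-- The half sum `P`. -/
noncomputable def PP (p : ℝ) (A D : Matrix n n ℂ) : ℝ :=
  (trPow p (A + D) + trPow p (A - D)) / 2

theorem PP_le {p : ℝ} (hp : 2 ≤ p) {A D : Matrix n n ℂ} (h : Adm A D) :
    PP p A D ≤ 2 ^ (p - 1) * trPow p A := by
  have h1 := superadd hp h.add h.sub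
  have h2 : (A + D) + (A - D) = ((2 : ℝ) : ℂ) • A := by
    push_cast; rw [two_smul]; abel
  rw [h2, trPow_smul h.psd (by norm_num)] at h1
  have a := ee_nonneg (p := p) h.add h.sub
  have b := ee_nonneg (p := p) h.sub h.add
  rw [ee] at a b
  have h3 : (2 : ℝ) ^ p = 2 * 2 ^ (p - 1) := by
    rw [Real.rpow_sub (by norm_num), Real.rpow_one]; ring
  rw [h3] at h1
  rw [PP]
  nlinarith [mul_nonneg (by linarith : (0 : ℝ) ≤ p - 1) (add_nonneg a b)]

/-- **Criterion.** -/
theorem crit {p : ℝ} (hp : 2 ≤ p) {A D : Matrix n n ℂ} {A' D' : Matrix m m ℂ} (h : Adm A D)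
    (h' : Adm A' D')
    (hc : 4 * ((2 ^ (p - 1) * trPow p A - PP p A D) * (2 ^ (p - 1) * trPow p A' - PP p A' D')) ≤
      (2 ^ (p - 1) - 1) * ((p - 1) * ((ee p (A + D) (A - D) + ee p (A - D) (A + D)) *
        (ee p (A' + D') (A' - D') + ee p (A' - D') (A' + D'))))) :
    Gfun p A D * Gfun p A' D' ≤ (2 ^ (p - 1) - 1) * Gfun p (A ⊗ₖ A') (D ⊗ₖ D') := by
  have hk := h.kron h'
  have two : (0 : ℝ) < 2 := by norm_num
  have e1 : ((2 : ℝ) : ℂ) • (A ⊗ₖ A' + D ⊗ₖ D') =
      (A + D) ⊗ₖ (A' + D') + (A - D) ⊗ₖ (A' - D') := by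
    ext ⟨i, j⟩ ⟨k, l⟩
    simp
    ring
  have e2 : ((2 : ℝ) : ℂ) • (A ⊗ₖ A' - D ⊗ₖ D') =
      (A + D) ⊗ₖ (A' - D') + (A - D) ⊗ₖ (A' + D') := by
    ext ⟨i, j⟩ ⟨k, l⟩
    simp
    ring
  have s1 := superadd hp (h.add.kronecker h'.add) (h.sub.kronecker h'.sub)
  have s2 := superadd hp (h.add.kronecker h'.sub) (h.sub.kronecker h'.add)
  rw [← e1, trPow_smul hk.add two, trPow_kron_mul h.add h'.add, trPow_kron_mul h.sub h'.sub] at s1
  rw [← e2, trPow_smul hk.sub two, trPow_kron_mul h.add h'.sub, trPow_kron_mul h.sub h'.add] at s2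
  have t1 := ee_kron (p := p) h.add h.sub h'.add (N' := A' - D')
  have t2 := ee_kron (p := p) h.sub h.add h'.sub (N' := A' + D')
  have t3 := ee_kron (p := p) h.add h.sub h'.sub (N' := A' + D')
  have t4 := ee_kron (p := p) h.sub h.add h'.add (N' := A' - D')
  have u1 : (trace (mpow ((A + D) ⊗ₖ (A' + D')) (p - 1) * ((A - D) ⊗ₖ (A' - D')))).re = _ := t1
  have u2 : (trace (mpow ((A - D) ⊗ₖ (A' - D')) (p - 1) * ((A + D) ⊗ₖ (A' + D')))).re = _ := t2
  have u3 : (trace (mpow ((A + D) ⊗ₖ (A' - D')) (p - 1) * ((A - D) ⊗ₖ (A' + D')))).re = _ := t3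
  have u4 : (trace (mpow ((A - D) ⊗ₖ (A' + D')) (p - 1) * ((A + D) ⊗ₖ (A' - D')))).re = _ := t4
  rw [u1, u2] at s1
  rw [u3, u4] at s2
  have hal := trPow_kron_mul h.psd h'.psd p
  have h3 : (2 : ℝ) ^ p = 2 * 2 ^ (p - 1) := by
    rw [Real.rpow_sub (by norm_num), Real.rpow_one]; ring
  rw [h3] at s1 s2
  have hK : (1 : ℝ) ≤ 2 ^ (p - 1) := Real.one_le_rpow (by norm_num) (by linarith)
  rw [Gfun, Gfun, Gfun, hal]
  rw [PP, PP] at hc
  generalize trPow p (A ⊗ₖ A' + D ⊗ₖ D') = x1 at *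
  generalize trPow p (A ⊗ₖ A' - D ⊗ₖ D') = x2 at *
  generalize trPow p (A + D) = mm at *
  generalize trPow p (A - D) = nn at *
  generalize trPow p (A' + D') = mm' at *
  generalize trPow p (A' - D') = nn' at *
  generalize trPow p A = al at *
  generalize trPow p A' = al' at *
  generalize ee p (A + D) (A - D) = a1 at *
  generalize ee p (A - D) (A + D) = a2 at *
  generalize ee p (A' + D') (A' - D') = b1 at *
  generalize ee p (A' - D') (A' + D') = b2 at *
  generalize (2 : ℝ) ^ (p - 1) = K at *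
  have s : (mm + nn) * (mm' + nn') + (p - 1) * ((a1 + a2) * (b1 + b2)) ≤ 2 * K * (x1 + x2) := by
    nlinarith
  -- multiply the goal by K
  have hK0 : 0 < K := by linarith
  have key : K * (((mm + nn) / 2 - al) * ((mm' + nn') / 2 - al')) ≤
      K * ((K - 1) * ((x1 + x2) / 2 - al * al')) := by
    nlinarith [mul_le_mul_of_nonneg_left s (by linarith : (0 : ℝ) ≤ K - 1)]
  exact le_of_mul_le_mul_left key hK0

end Pool.Agent.Lib_helper43.LA
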