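import Mathlib
import Pool.Agent.Lib_helper43.LA.Crit

set_option autoImplicit false
set_option linter.unusedSectionVars false

open scoped Kronecker ComplexOrder

namespace Pool.Agent.Lib_helper43.LA

open Matrix Pool.Agent.Lib_helper98.Renyi Filter Topology

variable {n m : Type*} [Fintype n] [DecidableEq n] [Fintype m] [DecidableEq m]
variable {ρ C : Matrix n n ℂ} {ρ' C' : Matrix m m ℂ}

theorem Pr.side (h : Pr ρ C) : ∃ (U : Matrix n n ℂ) (c : n → ℝ) (r : ℝ), Side ρ C U c r := by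
  obtain ⟨U, c, hU, hU', e⟩ := exists_spectral h.herm
  obtain ⟨r, hr, hr'⟩ := exists_r h.psd
  exact ⟨U, c, r, h.psd, h.left, h.right, hU, hU', e, hr, hr'⟩

theorem Pr.c_le (h : Pr ρ C) {U : Matrix n n ℂ} {c : n → ℝ} {r : ℝ} (S : Side ρ C U c r)
    (i : n) : |c i| ≤ 1 := by
  rcases eq_or_ne (c i) 0 with h0 | h0
  · rw [h0]; simp
  have d : (Uᴴ * C * U) i i = (c i : ℂ) := by rw [S.UCU, diagonal_apply_eq]
  have p0 := diag_re_nonneg (psd_conj' h.add U) i
  have p1 := diag_re_nonneg (psd_conj' h.sub U) i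
  rw [Matrix.mul_add, Matrix.add_mul, Matrix.add_apply, S.e1 h0, d] at p0
  rw [Matrix.mul_sub, Matrix.sub_mul, Matrix.sub_apply, S.e1 h0, d] at p1
  simp only [Complex.add_re, Complex.sub_re, Complex.one_re, Complex.ofReal_re] at p0 p1
  exact abs_le.2 ⟨by linarith, by linarith⟩

theorem hPih (h : ρ.PosSemidef) {p : ℝ} (hp : 0 < p) :
    mpow ρ (1 / (2 * p)) * mpow ρ 0 * mpow ρ (1 / (2 * p)) = AA p ρ := by
  rw [AA, ← mpow_add h, ← mpow_add h]
  congr 1
  field_simp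
  ring

theorem Pr.adm (h : Pr ρ C) {p : ℝ} (hp : 0 < p) : Adm (AA p ρ) (DD p ρ C) := by
  refine ⟨mpow_posSemidef h.psd _, ?_, ?_, ?_⟩
  · have := isHermitian_mul_mul_conjTranspose (mpow ρ (1 / (2 * p))) h.herm
    rwa [mpow_isHermitian h.psd] at this
  · have := sandwich_posSemidef h.psd h.add (1 / (2 * p))
    rwa [Matrix.mul_add, Matrix.add_mul, hPih h.psd hp] at this
  · have := sandwich_posSemidef h.psd h.sub (1 / (2 * p))
    rwa [Matrix.mul_sub, Matrix.sub_mul, hPih h.psd hp] at this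

theorem trPow_AA (h : ρ.PosSemidef) {p : ℝ} (hp : 0 < p) :
    trPow p (AA p ρ) = (trace ρ).re := by
  rw [trPow, AA, mpow_mpow h, one_div_mul_cancel hp.ne', mpow_one h]

theorem trace_re_nonneg (h : ρ.PosSemidef) : 0 ≤ (trace ρ).re := by
  have := h.trace_nonneg
  exact (Complex.le_def.1 this).1

/-- upper bound, unnormalised -/
theorem up2 {U : Matrix n n ℂ} {c : n → ℝ} {r : ℝ} (S : Side ρ C U c r) {α k : ℝ} (hα : 1 ≤ α)
    (hk : ∀ i, |c i| ≤ k) (s : ℝ) (hs : |s| ≤ 1) (hk0 : 0 ≤ k)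
    (hX : (AA α ρ + (s : ℂ) • DD α ρ C).PosSemidef) :
    trPow α (AA α ρ + (s : ℂ) • DD α ρ C) ≤ (1 + k) ^ α * trPow α (AA α ρ) ∧
      ((k : ℂ) • AA α ρ - (s : ℂ) • DD α ρ C).PosSemidef := by
  have hA : (AA α ρ).PosSemidef := mpow_posSemidef S.psd _
  have hk1 : 0 < 1 + k := by linarith
  have hY : (((1 + k : ℝ) : ℂ) • AA α ρ).PosSemidef := by
    refine hA.smul ?_
    exact_mod_cast hk1.le
  have hα0 : 0 < α := by linarith
  have hAA : AA α ρ = mpow ρ (1 / (2 * α)) * mpow ρ (1 / (2 * α)) := by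
    rw [AA, ← mpow_add S.psd]; congr 1; field_simp; ring
  have hP : (((k : ℝ) : ℂ) • (1 : Matrix n n ℂ) - (s : ℂ) • C).PosSemidef := by
    have : (s : ℂ) • C = U * diagonal (fun i => ((s * c i : ℝ) : ℂ)) * Uᴴ := by
      rw [S.eq, ← Matrix.smul_mul, ← Matrix.mul_smul, ← diagonal_smul]
      congr 3
      funext i
      simp
    rw [this, smul_one_sub_eq U S.hU']
    refine posSemidef_conj_diagonal U fun i => ?_
    have h1 : |s * c i| ≤ k := by
      rw [abs_mul]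
      calc |s| * |c i| ≤ 1 * k := mul_le_mul hs (hk i) (abs_nonneg _) (by norm_num)
        _ = k := one_mul k
    have := (abs_le.1 h1).2
    linarith
  have h := sandwich_posSemidef S.psd hP (1 / (2 * α))
  have e3 : mpow ρ (1 / (2 * α)) * (((k : ℝ) : ℂ) • (1 : Matrix n n ℂ) - (s : ℂ) • C) *
      mpow ρ (1 / (2 * α)) = (k : ℂ) • AA α ρ - (s : ℂ) • DD α ρ C := by
    rw [Matrix.mul_sub, Matrix.sub_mul, Matrix.mul_smul, Matrix.smul_mul, Matrix.mul_one, ← hAA,
      Matrix.mul_smul, Matrix.smul_mul, DD]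
  rw [e3] at h
  refine ⟨?_, h⟩
  rw [← trPow_smul hA hk1 α]
  refine trPow_mono hα hX hY ?_
  have e2 : ((1 + k : ℝ) : ℂ) • AA α ρ - (AA α ρ + (s : ℂ) • DD α ρ C) =
      (k : ℂ) • AA α ρ - (s : ℂ) • DD α ρ C := by
    push_cast
    rw [add_smul, one_smul]
    abel
  rwa [e2]

theorem low1 {U : Matrix n n ℂ} {c : n → ℝ} {r : ℝ} (S : Side ρ C U c r) {α : ℝ} (hα : 1 ≤ α)
    {i : n} (hi : c i ≠ 0) (s : ℝ) (hs : 0 ≤ s * c i)
    (hX : (AA α ρ + (s : ℂ) • DD α ρ C).PosSemidef) :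
    r * (1 + s * c i) ^ α ≤ trPow α (AA α ρ + (s : ℂ) • DD α ρ C) := by
  have hα0 : 0 < α := by linarith
  set X := AA α ρ + (s : ℂ) • DD α ρ C with hXd
  set t : ℝ := (trPow α X) ^ (1 / α) with ht
  have ht0 : 0 ≤ t := Real.rpow_nonneg (trPow_nonneg hX α) _
  have N0 := le_trPow hα hX
  rw [← ht] at N0
  have N1 : (BB α ρ * ((t : ℂ) • (1 : Matrix n n ℂ) - X) * BB α ρ).PosSemidef := by
    have := N0.mul_mul_conjTranspose_same (BB α ρ)
    rwa [S.BB_herm] at this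
  have E1 : BB α ρ * ((t : ℂ) • (1 : Matrix n n ℂ) - X) * BB α ρ =
      (t : ℂ) • (mpow ρ (-(1 / α))) - (mpow ρ 0 + (s : ℂ) • C) := by
    rw [Matrix.mul_sub, Matrix.sub_mul, Matrix.mul_smul, Matrix.smul_mul, Matrix.mul_one,
      S.BBB hα0, hXd, Matrix.mul_add, Matrix.add_mul, S.BAB hα0, Matrix.mul_smul,
      Matrix.smul_mul, S.BDB hα0]
  rw [E1] at N1
  have N2 := diag_re_nonneg (psd_conj' N1 U) i
  obtain ⟨b, hb0, hb1, hb⟩ := S.e2 hα0 i
  have E2 : (Uᴴ * ((t : ℂ) • (mpow ρ (-(1 / α))) - (mpow ρ 0 + (s : ℂ) • C)) * U) i i =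
      ((t * b - (1 + s * c i) : ℝ) : ℂ) := by
    rw [Matrix.mul_sub, Matrix.sub_mul, Matrix.mul_smul, Matrix.smul_mul, Matrix.mul_add,
      Matrix.add_mul, Matrix.mul_smul, Matrix.smul_mul, S.UCU]
    simp only [Matrix.sub_apply, Matrix.add_apply, Matrix.smul_apply, smul_eq_mul, hb, S.e1 hi,
      diagonal_apply_eq]
    push_cast
    ring
  rw [E2, Complex.ofReal_re] at N2
  have hR := S.r_pos
  have h1 : 1 + s * c i ≤ t * r ^ (-(1 / α)) := by
    nlinarith [mul_le_mul_of_nonneg_left hb1 ht0]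
  have h2 : (1 + s * c i) ^ α ≤ (t * r ^ (-(1 / α))) ^ α :=
    Real.rpow_le_rpow (by linarith) h1 hα0.le
  have h3 : (t * r ^ (-(1 / α))) ^ α = trPow α X * r⁻¹ := by
    rw [Real.mul_rpow ht0 (Real.rpow_nonneg hR.le _), ht, ← Real.rpow_mul (trPow_nonneg hX α),
      ← Real.rpow_mul hR.le, one_div_mul_cancel hα0.ne', Real.rpow_one, neg_mul,
      one_div_mul_cancel hα0.ne', Real.rpow_neg_one]
  rw [h3] at h2
  calc r * (1 + s * c i) ^ α ≤ r * (trPow α X * r⁻¹) := mul_le_mul_of_nonneg_left h2 hR.le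
    _ = trPow α X := by rw [mul_comm (trPow α X), ← mul_assoc, mul_inv_cancel₀ hR.ne', one_mul]

theorem ee_self {p : ℝ} {M : Matrix n n ℂ} (hM : M.PosSemidef) : ee p M M = trPow p M := by
  rw [ee, trPow]
  congr 2
  conv_lhs => rw [← mpow_one hM, mpow_mpow hM]
  rw [one_mul, ← mpow_add hM, sub_add_cancel]

/-- `E = e(M,N) + e(N,M)`. -/
noncomputable def EE (p : ℝ) (ρ C : Matrix n n ℂ) : ℝ :=
  ee p (AA p ρ + DD p ρ C) (AA p ρ - DD p ρ C) + ee p (AA p ρ - DD p ρ C) (AA p ρ + DD p ρ C)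

theorem ee_low {p : ℝ} {M N : Matrix n n ℂ} (hM : M.PosSemidef) {θ : ℝ}
    (hN : (N - (θ : ℂ) • M).PosSemidef) : θ * trPow p M ≤ ee p M N := by
  have h1 := ee_nonneg (p := p) hM hN
  have e : ee p M (N - (θ : ℂ) • M) = ee p M N - θ * ee p M M := by
    rw [ee, ee, ee, Matrix.mul_sub, Matrix.mul_smul, trace_sub, trace_smul, Complex.sub_re,
      smul_eq_mul, Complex.re_ofReal_mul]
  rw [e, ee_self hM] at h1
  linarith

/-- lower bound for `E` when `‖C‖ < 1` -/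
theorem EE_low_sub (h : Pr ρ C) {U : Matrix n n ℂ} {c : n → ℝ} {r : ℝ} (S : Side ρ C U c r)
    {i : n} (hi : ∀ j, |c j| ≤ |c i|) (h0 : c i ≠ 0) (h1 : |c i| < 1) :
    ∃ a : ℝ, 0 < a ∧ ∀ᶠ p : ℝ in atTop, a * (1 + |c i|) ^ p / p ^ 2 ≤ EE p ρ C := by
  set k := |c i| with hk
  have hk0 : 0 < k := abs_pos.2 h0
  have hk1 : 0 < 1 + k := by linarith
  refine ⟨(1 - k) / (1 + k) * r, by have := S.r_pos; have : 0 < 1 - k := by linarith
                                    positivity, ?_⟩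
  filter_upwards [eventually_ge_atTop (1 : ℝ)] with p hp
  have hp0 : 0 < p := by linarith
  have adm := h.adm hp0
  have main : ∀ s : ℝ, (s = 1 ∨ s = -1) → 0 ≤ s * c i →
      (1 - k) / (1 + k) * r * (1 + k) ^ p ≤
        ee p (AA p ρ + (s : ℂ) • DD p ρ C) (AA p ρ - (s : ℂ) • DD p ρ C) := by
    intro s hs hsc
    have hM : (AA p ρ + (s : ℂ) • DD p ρ C).PosSemidef := by
      rcases hs with rfl | rfl
      · rw [Complex.ofReal_one, one_smul]; exact adm.add
      · push_cast; rw [neg_smul, one_smul, ← sub_eq_add_neg]; exact adm.sub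
    have habs : |s| ≤ 1 := by rcases hs with rfl | rfl <;> simp
    obtain ⟨-, hP⟩ := up2 S hp hi s habs hk0.le hM
    have hl := low1 S hp h0 s hsc hM
    have hsk : s * c i = k := by
      rw [hk]
      rcases hs with rfl | rfl
      · rw [one_mul] at hsc ⊢; exact (abs_of_nonneg hsc).symm
      · rw [neg_one_mul] at hsc ⊢; exact (abs_of_nonpos (by linarith)).symm
    rw [hsk] at hl
    have hN : ((AA p ρ - (s : ℂ) • DD p ρ C) - (((1 - k) / (1 + k) : ℝ) : ℂ) •
        (AA p ρ + (s : ℂ) • DD p ρ C)).PosSemidef := by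
      have e : (AA p ρ - (s : ℂ) • DD p ρ C) - (((1 - k) / (1 + k) : ℝ) : ℂ) •
          (AA p ρ + (s : ℂ) • DD p ρ C) =
          ((2 / (1 + k) : ℝ) : ℂ) • ((k : ℂ) • AA p ρ - (s : ℂ) • DD p ρ C) := by
        have hc : (1 : ℂ) + (k : ℂ) ≠ 0 := by exact_mod_cast hk1.ne'
        ext a b
        simp only [Matrix.sub_apply, Matrix.smul_apply, Matrix.add_apply, smul_eq_mul]
        push_cast
        field_simp
        ring
      rw [e]
      refine hP.smul ?_
      exact_mod_cast (by positivity : (0 : ℝ) ≤ 2 / (1 + k))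
    have hθ : (0 : ℝ) ≤ (1 - k) / (1 + k) := div_nonneg (by linarith) hk1.le
    calc (1 - k) / (1 + k) * r * (1 + k) ^ p = (1 - k) / (1 + k) * (r * (1 + k) ^ p) := by ring
      _ ≤ (1 - k) / (1 + k) * trPow p (AA p ρ + (s : ℂ) • DD p ρ C) :=
          mul_le_mul_of_nonneg_left hl hθ
      _ ≤ _ := ee_low hM hN
  have dv : (1 - k) / (1 + k) * r * (1 + k) ^ p / p ^ 2 ≤ (1 - k) / (1 + k) * r * (1 + k) ^ p := by
    have : 0 ≤ (1 - k) / (1 + k) * r * (1 + k) ^ p := by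
      have := S.r_pos
      have : (0 : ℝ) ≤ (1 - k) / (1 + k) := div_nonneg (by linarith) hk1.le
      positivity
    exact div_le_self this (one_le_pow₀ hp)
  refine dv.trans ?_
  have a1 := ee_nonneg (p := p) adm.add adm.sub
  have a2 := ee_nonneg (p := p) adm.sub adm.add
  rw [EE]
  rcases le_total 0 (c i) with hc | hc
  · have := main 1 (Or.inl rfl) (by linarith)
    rw [Complex.ofReal_one, one_smul] at this
    linarith
  · have := main (-1) (Or.inr rfl) (by linarith)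
    push_cast at this
    rw [neg_smul, one_smul, ← sub_eq_add_neg, sub_neg_eq_add] at this
    linarith

theorem DD_zero (p : ℝ) : DD p ρ 0 = 0 := by rw [DD]; simp

theorem Lam_zero_left (p : ℝ) : Lam p ρ (0 : Matrix n n ℂ) ρ' C' = 0 := by
  rw [Lam, DD_zero, zero_kronecker, Gfun_zero_right, Gfun_zero_right]; ring

theorem Lam_zero_right (p : ℝ) : Lam p ρ C ρ' (0 : Matrix m m ℂ) = 0 := by
  rw [Lam, DD_zero, kronecker_zero, Gfun_zero_right, Gfun_zero_right]; ring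

theorem eventually_crit2 {R T c c' : ℝ} (hR : 0 < R) (hT : 0 ≤ T) (hc : 0 < c) (hc' : 0 < c')
    (h1 : c < 1) (h1' : c' < 1) : ∀ᶠ α : ℝ in atTop,
    T * ((1 + c) ^ α * (1 + c') ^ α) ≤
      (2 ^ (α - 1) - 1) * (R * (1 + c * c') ^ α / 2 - T) := by
  have hA : 0 < 1 + c * c' := by positivity
  have hb : 0 < (1 + c) * (1 + c') / 2 := by positivity
  have hlt : (1 + c) * (1 + c') / 2 / (1 + c * c') < 1 := by
    rw [div_lt_one hA]
    nlinarith [mul_pos (sub_pos.2 h1) (sub_pos.2 h1')]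
  have hlt2 : 1 / (1 + c * c') < 1 := by
    rw [div_lt_one hA]
    nlinarith [mul_pos hc hc']
  have t1 := tendsto_rpow_atTop_of_base_lt_one ((1 + c) * (1 + c') / 2 / (1 + c * c'))
    (by have : 0 < (1 + c) * (1 + c') / 2 / (1 + c * c') := by positivity
        linarith) hlt
  have t2 := tendsto_rpow_atTop_of_base_lt_one (1 / (1 + c * c'))
    (by have : 0 < 1 / (1 + c * c') := by positivity
        linarith) hlt2
  have hd : (0 : ℝ) < R / (10 * (T + 1)) := by positivity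
  have e1 := t1.eventually (gt_mem_nhds hd)
  have e2 := t2.eventually (gt_mem_nhds hd)
  filter_upwards [e1, e2, eventually_ge_atTop (2 : ℝ)] with α g1 g2 g3
  rw [Real.div_rpow hb.le hA.le, div_lt_iff₀ (Real.rpow_pos_of_pos hA _)] at g1
  rw [Real.div_rpow (by norm_num) hA.le, Real.one_rpow,
    div_lt_iff₀ (Real.rpow_pos_of_pos hA _)] at g2
  have e3 : (1 + c) ^ α * (1 + c') ^ α = 2 ^ α * ((1 + c) * (1 + c') / 2) ^ α := by
    rw [← Real.mul_rpow (by positivity) (by positivity),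
      ← Real.mul_rpow (by norm_num) hb.le]
    congr 1
    ring
  set X := (1 + c * c') ^ α with hX
  set Y := ((1 + c) * (1 + c') / 2) ^ α with hY
  have e4 : (2 : ℝ) ^ (α - 1) = 2 ^ α / 2 := by rw [Real.rpow_sub (by norm_num), Real.rpow_one]
  have e5 : (4 : ℝ) ≤ 2 ^ α := by
    calc (4 : ℝ) = 2 ^ (2 : ℝ) := by norm_num
      _ ≤ 2 ^ α := Real.rpow_le_rpow_of_exponent_le (by norm_num) g3
  rw [e3, e4]
  have hX0 : 0 < X := Real.rpow_pos_of_pos hA _
  have hY0 : 0 < Y := Real.rpow_pos_of_pos hb _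
  have k1 : (2 : ℝ) ^ α / 4 ≤ 2 ^ α / 2 - 1 := by linarith
  have q1 : T * Y ≤ R * X / 10 := by
    have : T * Y ≤ T * (R / (10 * (T + 1)) * X) := mul_le_mul_of_nonneg_left g1.le hT
    have h2 : T * (R / (10 * (T + 1)) * X) = (T / (T + 1)) * (R * X / 10) := by
      field_simp
    have h3 : T / (T + 1) ≤ 1 := by rw [div_le_one (by linarith)]; linarith
    have h4 : 0 ≤ R * X / 10 := by positivity
    nlinarith [mul_le_mul_of_nonneg_right h3 h4]
  have q2 : T ≤ R * X / 10 := by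
    have : T * 1 ≤ T * (R / (10 * (T + 1)) * X) := mul_le_mul_of_nonneg_left g2.le hT
    have h2 : T * (R / (10 * (T + 1)) * X) = (T / (T + 1)) * (R * X / 10) := by
      field_simp
    have h3 : T / (T + 1) ≤ 1 := by rw [div_le_one (by linarith)]; linarith
    have h4 : 0 ≤ R * X / 10 := by positivity
    nlinarith [mul_le_mul_of_nonneg_right h3 h4]
  have k2 : 4 * (T * Y) ≤ R * X / 2 - T := by
    have : 0 ≤ R * X := by positivity
    linarith
  have k3 : 0 ≤ T * Y := by positivity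
  calc T * ((2 : ℝ) ^ α * Y) = 2 ^ α / 4 * (4 * (T * Y)) := by ring
    _ ≤ (2 ^ α / 2 - 1) * (R * X / 2 - T) :=
        mul_le_mul k1 k2 (by positivity) (by linarith)

theorem ev_sub (h : Pr ρ C) (h' : Pr ρ' C') {U : Matrix n n ℂ} {c : n → ℝ} {r : ℝ}
    (S : Side ρ C U c r) {U' : Matrix m m ℂ} {c' : m → ℝ} {r' : ℝ} (S' : Side ρ' C' U' c' r')
    {i : n} {j : m} (hi : ∀ k, |c k| ≤ |c i|) (hj : ∀ k, |c' k| ≤ |c' j|) (h0 : c i ≠ 0)
    (h0' : c' j ≠ 0) (h1 : |c i| < 1) (h1' : |c' j| < 1) :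
    ∀ᶠ p : ℝ in atTop, 0 ≤ Lam p ρ C ρ' C' := by
  have hR : 0 < r * r' := mul_pos S.r_pos S'.r_pos
  have hT : 0 ≤ (trace ρ).re * (trace ρ').re :=
    mul_nonneg (trace_re_nonneg h.psd) (trace_re_nonneg h'.psd)
  have ev := eventually_crit2 hR hT (abs_pos.2 h0) (abs_pos.2 h0') h1 h1'
  filter_upwards [ev, eventually_ge_atTop (2 : ℝ)] with α hcrit h2
  have hα1 : 1 ≤ α := by linarith
  have hα0 : 0 < α := by linarith
  have adm₁ := h.adm hα0
  have adm₂ := h'.adm hα0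
  have adm := adm₁.kron adm₂
  have n1 := trPow_AA h.psd hα0
  have n2 := trPow_AA h'.psd hα0
  have up1 : Gfun α (AA α ρ) (DD α ρ C) ≤ (1 + |c i|) ^ α * (trace ρ).re := by
    have a := (up2 S hα1 hi 1 (by simp) (abs_nonneg _)
      (by rw [Complex.ofReal_one, one_smul]; exact adm₁.add)).1
    have b := (up2 S hα1 hi (-1) (by simp) (abs_nonneg _)
      (by push_cast; rw [neg_smul, one_smul, ← sub_eq_add_neg]; exact adm₁.sub)).1
    rw [Complex.ofReal_one, one_smul, n1] at a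
    push_cast at b
    rw [neg_smul, one_smul, ← sub_eq_add_neg, n1] at b
    rw [Gfun, n1]
    have := trace_re_nonneg h.psd
    linarith
  have up2' : Gfun α (AA α ρ') (DD α ρ' C') ≤ (1 + |c' j|) ^ α * (trace ρ').re := by
    have a := (up2 S' hα1 hj 1 (by simp) (abs_nonneg _)
      (by rw [Complex.ofReal_one, one_smul]; exact adm₂.add)).1
    have b := (up2 S' hα1 hj (-1) (by simp) (abs_nonneg _)
      (by push_cast; rw [neg_smul, one_smul, ← sub_eq_add_neg]; exact adm₂.sub)).1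
    rw [Complex.ofReal_one, one_smul, n2] at a
    push_cast at b
    rw [neg_smul, one_smul, ← sub_eq_add_neg, n2] at b
    rw [Gfun, n2]
    have := trace_re_nonneg h'.psd
    linarith
  have g1 := Gfun_nonneg hα1 adm₁.psd adm₁.add adm₁.sub
  have g2 := Gfun_nonneg hα1 adm₂.psd adm₂.add adm₂.sub
  have hn := trPow_kron_mul adm₁.psd adm₂.psd α
  rw [n1, n2] at hn
  have lo : r * r' * (1 + |c i| * |c' j|) ^ α / 2 - (trace ρ).re * (trace ρ').re ≤
      Gfun α (AA α ρ ⊗ₖ AA α ρ') (DD α ρ C ⊗ₖ DD α ρ' C') := by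
    rw [Gfun, hn, ← abs_mul]
    have pa := trPow_nonneg adm.add α
    have pb := trPow_nonneg adm.sub α
    rcases le_total 0 (c i * c' j) with hs | hs
    · have l := low S S' hα1 h0 h0' 1 (by rwa [one_mul])
        (by rw [Complex.ofReal_one, one_smul]; exact adm.add)
      rw [Complex.ofReal_one, one_smul, one_mul] at l
      rw [abs_of_nonneg hs]
      linarith
    · have l := low S S' hα1 h0 h0' (-1) (by linarith)
        (by push_cast; rw [neg_smul, one_smul, ← sub_eq_add_neg]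
            exact adm.sub)
      push_cast at l
      rw [neg_smul, one_smul, ← sub_eq_add_neg, neg_one_mul] at l
      rw [abs_of_nonpos hs]
      linarith
  have k0 : 0 ≤ (2 : ℝ) ^ (α - 1) - 1 := by
    have : (1 : ℝ) ≤ 2 ^ (α - 1) := Real.one_le_rpow (by norm_num) (by linarith)
    linarith
  have t1 := trace_re_nonneg h.psd
  have chain : Gfun α (AA α ρ) (DD α ρ C) * Gfun α (AA α ρ') (DD α ρ' C') ≤
      (2 ^ (α - 1) - 1) * Gfun α (AA α ρ ⊗ₖ AA α ρ') (DD α ρ C ⊗ₖ DD α ρ' C') :=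
    calc Gfun α (AA α ρ) (DD α ρ C) * Gfun α (AA α ρ') (DD α ρ' C')
        ≤ ((1 + |c i|) ^ α * (trace ρ).re) * ((1 + |c' j|) ^ α * (trace ρ').re) :=
          mul_le_mul up1 up2' g2 (by positivity)
      _ = (trace ρ).re * (trace ρ').re * ((1 + |c i|) ^ α * (1 + |c' j|) ^ α) := by ring
      _ ≤ (2 ^ (α - 1) - 1) * (r * r' * (1 + |c i| * |c' j|) ^ α / 2 -
          (trace ρ).re * (trace ρ').re) := hcrit
      _ ≤ _ := mul_le_mul_of_nonneg_left lo k0
  rw [Lam]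
  linarith

end Pool.Agent.Lib_helper43.LA
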