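import Mathlib
import Pool.Agent.Lib_helper43.LA.Sub

set_option autoImplicit false
set_option linter.unusedSectionVars false

open scoped Kronecker ComplexOrder

namespace Pool.Agent.Lib_helper43.LA

open Matrix Pool.Agent.Lib_helper98.Renyi Filter Topology

theorem Pr.neg {n : Type*} [Fintype n] [DecidableEq n] {ρ C : Matrix n n ℂ} (h : Pr ρ C) :
    Pr ρ (-C) := by
  refine ⟨h.psd, h.herm.neg, ?_, ?_, ?_, ?_⟩
  · rw [Matrix.mul_neg, h.left]
  · rw [Matrix.neg_mul, h.right]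
  · rw [← sub_eq_add_neg]; exact h.sub
  · rw [sub_neg_eq_add]; exact h.add

theorem DD_neg {n : Type*} [Fintype n] [DecidableEq n] {ρ C : Matrix n n ℂ} (p : ℝ) :
    DD p ρ (-C) = -DD p ρ C := by
  rw [DD, DD, Matrix.mul_neg, Matrix.neg_mul]

/-- no common eigenvector with `C f = ± f`, `ρ f = η f`, `η > 0` -/
def NoCom {n : Type*} [Fintype n] (ρ C : Matrix n n ℂ) : Prop :=
  ¬ ∃ (f : n → ℂ) (η s : ℝ), star f ⬝ᵥ f = 1 ∧ 0 < η ∧ (s = 1 ∨ s = -1) ∧
    ρ *ᵥ f = (η : ℂ) • f ∧ C *ᵥ f = (s : ℂ) • f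

theorem NoCom.ne {n : Type*} [Fintype n] {ρ C : Matrix n n ℂ} (h : NoCom ρ C) {s : ℝ}
    (hs : s = 1 ∨ s = -1) (f : n → ℂ) (η : ℝ) (hη : 0 < η) (hf : f ≠ 0)
    (e : ρ *ᵥ f = (η : ℂ) • f) : C *ᵥ f ≠ (s : ℂ) • f := by
  intro hc
  apply h
  have hpos : 0 < star f ⬝ᵥ f := by
    have h1 : 0 ≤ star f ⬝ᵥ f := dotProduct_star_self_nonneg f
    have h2 : star f ⬝ᵥ f ≠ 0 := by rw [Ne, dotProduct_star_self_eq_zero]; exact hf
    exact lt_of_le_of_ne h1 (Ne.symm h2)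
  have hre : 0 < (star f ⬝ᵥ f).re := (Complex.lt_def.1 hpos).1
  have him : (star f ⬝ᵥ f).im = 0 := ((Complex.lt_def.1 hpos).2).symm
  have heq : star f ⬝ᵥ f = (((star f ⬝ᵥ f).re : ℝ) : ℂ) := by
    apply Complex.ext <;> simp [him]
  set t := (star f ⬝ᵥ f).re with ht
  have hst : 0 < Real.sqrt t := Real.sqrt_pos.2 hre
  refine ⟨(((Real.sqrt t)⁻¹ : ℝ) : ℂ) • f, η, s, ?_, hη, hs, ?_, ?_⟩
  · rw [star_smul, smul_dotProduct, dotProduct_smul, heq, smul_eq_mul, smul_eq_mul,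
      Complex.star_def, Complex.conj_ofReal, ← Complex.ofReal_mul, ← Complex.ofReal_mul]
    have : (Real.sqrt t)⁻¹ * ((Real.sqrt t)⁻¹ * t) = 1 := by
      rw [← mul_assoc, ← mul_inv, Real.mul_self_sqrt hre.le, inv_mul_cancel₀ hre.ne']
    rw [this, Complex.ofReal_one]
  · rw [mulVec_smul, e, smul_comm]
  · rw [mulVec_smul, hc, smul_comm]

theorem exp_beats {k B : ℝ} (hk : 0 < k) : ∀ᶠ p : ℝ in atTop, B ≤ (1 + k) ^ p / p ^ 4 := by
  have hl : 0 < Real.log (1 + k) := Real.log_pos (by linarith)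
  have h := tendsto_exp_mul_div_rpow_atTop 4 (Real.log (1 + k)) hl
  filter_upwards [h.eventually_ge_atTop B, eventually_gt_atTop (0 : ℝ)] with p hp h0
  have e1 : (1 + k) ^ p = Real.exp (Real.log (1 + k) * p) := Real.rpow_def_of_pos (by linarith) p
  have e2 : p ^ (4 : ℝ) = p ^ 4 := by norm_cast
  rw [e1, ← e2]
  exact hp

theorem fin_crit {K q E E' X Y t t' p : ℝ} (hK : 2 ≤ K) (hq : 1 ≤ q) (hp : 0 < p)
    (hX0 : 0 ≤ X) (hY : 0 ≤ Y) (hE : X / p ^ 2 ≤ E) (hE' : Y / p ^ 2 ≤ E')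
    (hbig : 8 * (K * (t * t')) ≤ X * Y / p ^ 4) {P P' : ℝ} (hP : 0 ≤ P) (hP' : 0 ≤ P')
    (hPt : P ≤ K * t) (hPt' : P' ≤ K * t') :
    4 * ((K * t - P) * (K * t' - P')) ≤ (K - 1) * (q * (E * E')) := by
  have hK0 : 0 < K := by linarith
  have a1 : (K * t - P) * (K * t' - P') ≤ (K * t) * (K * t') :=
    mul_le_mul (by linarith) (by linarith) (by linarith) (by linarith)
  have a2 : X / p ^ 2 * (Y / p ^ 2) ≤ E * E' :=
    mul_le_mul hE hE' (by positivity) (le_trans (by positivity) hE)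
  have a3 : X / p ^ 2 * (Y / p ^ 2) = X * Y / p ^ 4 := by field_simp
  rw [a3] at a2
  have a4 : 0 ≤ X * Y / p ^ 4 := by positivity
  have a5 : 0 ≤ E * E' := a4.trans a2
  have a6 : K / 2 * (1 * (X * Y / p ^ 4)) ≤ (K - 1) * (q * (E * E')) := by
    refine mul_le_mul (by linarith) ?_ (by positivity) (by linarith)
    exact mul_le_mul hq a2 a4 (by linarith)
  have a7 : K / 2 * (8 * (K * (t * t'))) ≤ K / 2 * (X * Y / p ^ 4) :=
    mul_le_mul_of_nonneg_left hbig (by linarith)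
  nlinarith

section main

variable {n m : Type} [Fintype n] [DecidableEq n] [Fintype m] [DecidableEq m]

theorem exists_E (HN : NRTarget) {ρ C : Matrix n n ℂ} (h : Pr ρ C) (hno : NoCom ρ C)
    (hC : C ≠ 0) : ∃ (U : Matrix n n ℂ) (c : n → ℝ) (r : ℝ) (i : n), Side ρ C U c r ∧
      (∀ k, |c k| ≤ |c i|) ∧ c i ≠ 0 ∧ |c i| ≤ 1 ∧
      ∃ a : ℝ, 0 < a ∧ ∀ᶠ p : ℝ in atTop, a * (1 + |c i|) ^ p / p ^ 2 ≤ EE p ρ C := by
  obtain ⟨U, c, r, S⟩ := h.side
  have hne : Nonempty n := by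
    by_contra hn
    rw [not_nonempty_iff] at hn
    exact hC (Subsingleton.elim _ _)
  obtain ⟨i, hi⟩ := Finite.exists_max fun i => |c i|
  have h0 : c i ≠ 0 := by
    intro h0
    apply hC
    have : (fun i => (c i : ℂ)) = fun _ => 0 := by
      funext k
      have := hi k
      rw [h0, abs_zero] at this
      rw [abs_eq_zero.1 (le_antisymm this (abs_nonneg _))]
      simp
    rw [S.eq, this]
    simp
  have h1 := h.c_le S i
  refine ⟨U, c, r, i, S, hi, h0, h1, ?_⟩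
  rcases lt_or_eq_of_le h1 with hlt | heq
  · exact EE_low_sub h S hi h0 hlt
  -- the eigenvector
  have hcol : C *ᵥ (U *ᵥ Pi.single i 1) = (c i : ℂ) • (U *ᵥ Pi.single i 1) := by
    have e : C * U = U * diagonal (fun i => (c i : ℂ)) := by
      calc C * U = U * (Uᴴ * C * U) := by
            rw [Matrix.mul_assoc, ← Matrix.mul_assoc, S.hU', Matrix.one_mul]
        _ = _ := by rw [S.UCU]
    rw [mulVec_mulVec, e, ← mulVec_mulVec]
    have : diagonal (fun i => (c i : ℂ)) *ᵥ Pi.single i (1 : ℂ) = (c i : ℂ) • Pi.single i 1 := by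
      funext k
      rw [mulVec_diagonal]
      by_cases hk : k = i
      · subst hk; simp
      · simp [Pi.single_eq_of_ne hk]
    rw [this, mulVec_smul]
  have hχ : U *ᵥ Pi.single i (1 : ℂ) ≠ 0 := by
    intro hz
    have : Uᴴ *ᵥ (U *ᵥ Pi.single i (1 : ℂ)) = Pi.single i 1 := by
      rw [mulVec_mulVec, S.hU, one_mulVec]
    rw [hz, mulVec_zero] at this
    have := congrFun this i
    simp at this
  rcases le_total 0 (c i) with hc | hc
  · have hci : c i = 1 := by rwa [abs_of_nonneg hc] at heq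
    rw [hci] at hcol
    obtain ⟨ε, hε, hev⟩ := HN n ρ C h _ hχ (by rw [hcol]; simp) (fun f η hη hf e => by
      have := hno.ne (s := 1) (Or.inl rfl) f η hη hf e
      simpa using this)
    refine ⟨ε, hε, ?_⟩
    filter_upwards [hev, eventually_gt_atTop (0 : ℝ)] with p hp h0
    have adm := h.adm h0
    have a2 := ee_nonneg (p := p) adm.sub adm.add
    have e1 : ee p (AA p ρ + DD p ρ C) (AA p ρ - DD p ρ C) = (trace (mpow (AA p ρ + DD p ρ C)
      (p - 1) * (AA p ρ - DD p ρ C))).re := rfl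
    rw [EE, heq, e1]
    rw [show (1 : ℝ) + 1 = 2 by norm_num, mul_comm ε]
    linarith
  · have hci : c i = -1 := by rw [abs_of_nonpos hc] at heq; linarith
    rw [hci] at hcol
    obtain ⟨ε, hε, hev⟩ := HN n ρ (-C) h.neg _ hχ (by rw [neg_mulVec, hcol]; simp)
      (fun f η hη hf e hcf => by
        have := hno.ne (s := -1) (Or.inr rfl) f η hη hf e
        apply this
        rw [neg_mulVec] at hcf
        have h9 : C *ᵥ f = -f := by rw [← hcf, neg_neg, hcf]
        rw [h9]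
        simp)
    refine ⟨ε, hε, ?_⟩
    filter_upwards [hev, eventually_gt_atTop (0 : ℝ)] with p hp h0
    have adm := h.adm h0
    have a2 := ee_nonneg (p := p) adm.add adm.sub
    rw [DD_neg, ← sub_eq_add_neg, sub_neg_eq_add] at hp
    have e1 : ee p (AA p ρ - DD p ρ C) (AA p ρ + DD p ρ C) = (trace (mpow (AA p ρ - DD p ρ C)
      (p - 1) * (AA p ρ + DD p ρ C))).re := rfl
    rw [EE, heq, e1]
    rw [show (1 : ℝ) + 1 = 2 by norm_num, mul_comm ε]
    linarith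

theorem ev_nocom (HN : NRTarget) {ρ C : Matrix n n ℂ} {ρ' C' : Matrix m m ℂ} (h : Pr ρ C)
    (h' : Pr ρ' C') (hno : NoCom ρ C) (hno' : NoCom ρ' C') :
    ∀ᶠ p : ℝ in atTop, 0 ≤ Lam p ρ C ρ' C' := by
  by_cases hC : C = 0
  · subst hC
    exact Eventually.of_forall fun p => (Lam_zero_left p).ge
  by_cases hC' : C' = 0
  · subst hC'
    exact Eventually.of_forall fun p => (Lam_zero_right p).ge
  obtain ⟨U, c, r, i, S, hi, h0, h1, a, ha, hE⟩ := exists_E HN h hno hC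
  obtain ⟨U', c', r', j, S', hj, h0', h1', a', ha', hE'⟩ := exists_E HN h' hno' hC'
  by_cases hsub : |c i| < 1 ∧ |c' j| < 1
  · exact ev_sub h h' S S' hi hj h0 h0' hsub.1 hsub.2
  -- at least one of the two is equal to one
  have hk : 0 < |c i| := abs_pos.2 h0
  have hk' : 0 < |c' j| := abs_pos.2 h0'
  set t := (trace ρ).re with ht
  set t' := (trace ρ').re with ht'
  have hprod : ∃ k : ℝ, 0 < k ∧ ∀ p : ℝ, 0 ≤ p →
      2 ^ p * (1 + k) ^ p ≤ (1 + |c i|) ^ p * (1 + |c' j|) ^ p := by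
    have hcase : |c i| = 1 ∨ |c' j| = 1 := by
      by_contra hcon
      push Not at hcon
      exact hsub ⟨lt_of_le_of_ne h1 hcon.1, lt_of_le_of_ne h1' hcon.2⟩
    rcases hcase with e | e
    · refine ⟨|c' j|, hk', fun p _ => ?_⟩
      rw [e, show (1 : ℝ) + 1 = 2 by norm_num]
    · refine ⟨|c i|, hk, fun p _ => ?_⟩
      rw [e, show (1 : ℝ) + 1 = 2 by norm_num, mul_comm]
  obtain ⟨k, hk0, hkk⟩ := hprod
  have hbeat := exp_beats (k := k) (B := 16 * (t * t') / (a * a')) hk0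
  filter_upwards [hE, hE', hbeat, eventually_ge_atTop (2 : ℝ)] with p hEp hEp' hb hp
  have hp0 : 0 < p := by linarith
  have adm := h.adm hp0
  have adm' := h'.adm hp0
  have hK : (2 : ℝ) ≤ 2 ^ (p - 1) := by
    calc (2 : ℝ) = 2 ^ (1 : ℝ) := by norm_num
      _ ≤ 2 ^ (p - 1) := Real.rpow_le_rpow_of_exponent_le (by norm_num) (by linarith)
  have h2p : (2 : ℝ) ^ p = 2 * 2 ^ (p - 1) := by
    rw [Real.rpow_sub (by norm_num), Real.rpow_one]; ring
  have P0 : 0 ≤ PP p (AA p ρ) (DD p ρ C) := by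
    rw [PP]; have := trPow_nonneg adm.add p; have := trPow_nonneg adm.sub p; positivity
  have P0' : 0 ≤ PP p (AA p ρ') (DD p ρ' C') := by
    rw [PP]; have := trPow_nonneg adm'.add p; have := trPow_nonneg adm'.sub p; positivity
  have P1 := PP_le hp adm
  have P1' := PP_le hp adm'
  have hc := crit hp adm adm' ?_
  · rw [Lam]; linarith
  rw [trPow_AA h.psd hp0, trPow_AA h'.psd hp0] at *
  have X0 : 0 ≤ a * (1 + |c i|) ^ p := by positivity
  have Y0 : 0 ≤ a' * (1 + |c' j|) ^ p := by positivity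
  refine fin_crit (p := p) hK (by linarith) hp0 X0 Y0 hEp hEp' ?_ P0 P0' P1 P1'
  -- the exponential beats
  have hKpos : (0 : ℝ) < 2 ^ (p - 1) := by linarith
  have haa : 0 < a * a' := mul_pos ha ha'
  have hp4 : 0 < p ^ 4 := by positivity
  rw [div_le_iff₀ haa, div_mul_eq_mul_div, le_div_iff₀ hp4] at hb
  rw [le_div_iff₀ hp4]
  have h3 := mul_le_mul_of_nonneg_left (hkk p hp0.le) haa.le
  rw [h2p] at h3
  have h4 : 2 ^ (p - 1) * (16 * (t * t') * p ^ 4) ≤ 2 ^ (p - 1) * ((1 + k) ^ p * (a * a')) :=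
    mul_le_mul_of_nonneg_left hb hKpos.le
  have h5 : 0 ≤ 2 ^ (p - 1) * (t * t' * p ^ 4) := by
    have := trace_re_nonneg h.psd
    have := trace_re_nonneg h'.psd
    positivity
  nlinarith

end main

end Pool.Agent.Lib_helper43.LA
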