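import Mathlib
import Pool.Agent.Lib_helper43.LA.All

set_option autoImplicit false
set_option linter.unusedSectionVars false

open scoped Kronecker ComplexOrder

namespace Pool.Agent.Lib_helper43.LA

open Matrix Pool.Agent.Lib_helper98.Renyi Filter Topology

theorem all_pr (HS : SwapTarget) (HP : PeelTarget) (HN : NRTarget) {n m : Type} [Fintype n]
    [DecidableEq n] [Fintype m] [DecidableEq m] :
    ∀ (N : ℕ) (ρ C : Matrix n n ℂ) (ρ' C' : Matrix m m ℂ), Pr ρ C → Pr ρ' C' →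
      ρ.rank + ρ'.rank = N → ∀ᶠ p : ℝ in atTop, 0 ≤ Lam p ρ C ρ' C' := by
  intro N
  induction N using Nat.strong_induction_on with
  | _ N ih =>
    intro ρ C ρ' C' h h' hN
    by_cases hno : NoCom ρ C
    · by_cases hno' : NoCom ρ' C'
      · exact ev_nocom HN h h' hno hno'
      · rw [NoCom, not_not] at hno'
        obtain ⟨f, η, s, hf, hη, hs, e1, e2⟩ := hno'
        obtain ⟨ρ₁, C₁, h₁, hr, hL⟩ := HP m n ρ' C' ρ C h' h f η s hf hη hs e1 e2
        have := ih (ρ.rank + ρ₁.rank) (by omega) ρ C ρ₁ C₁ h h₁ rfl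
        filter_upwards [this, eventually_ge_atTop (1 : ℝ)] with p hp h1
        rw [HS n m p ρ C ρ' C' h h' (by linarith), hL p h1,
          ← HS n m p ρ C ρ₁ C₁ h h₁ (by linarith)]
        exact hp
    · rw [NoCom, not_not] at hno
      obtain ⟨f, η, s, hf, hη, hs, e1, e2⟩ := hno
      obtain ⟨ρ₁, C₁, h₁, hr, hL⟩ := HP n m ρ C ρ' C' h h' f η s hf hη hs e1 e2
      have := ih (ρ₁.rank + ρ'.rank) (by omega) ρ₁ C₁ ρ' C' h₁ h' rfl
      filter_upwards [this, eventually_ge_atTop (1 : ℝ)] with p hp h1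
      rw [hL p h1]
      exact hp

theorem pr_of_density {n : Type} [Fintype n] [DecidableEq n] {σ : Fin 2 → Matrix n n ℂ}
    (h : ∀ x, IsDensity (σ x)) : Pr (rhoOf σ) (CC σ) := by
  have hρ := rhoOf_posSemidef h
  obtain ⟨s0, s1⟩ := sandwich_half h
  obtain ⟨U, c, r, S⟩ := exists_side h
  refine ⟨hρ, CC_herm h, S.left, S.right, ?_, ?_⟩
  · rw [← s0]; exact sandwich_posSemidef hρ (h 0).1 _
  · rw [← s1]; exact sandwich_posSemidef hρ (h 1).1 _

/-- For every pair of states the bound holds for all large `α`. -/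
theorem large_all (HS : SwapTarget) (HP : PeelTarget) (HN : NRTarget) {b₁ b₂ : Type} [Fintype b₁]
    [DecidableEq b₁] [Fintype b₂] [DecidableEq b₂] (σ₁ : Fin 2 → Matrix b₁ b₁ ℂ)
    (σ₂ : Fin 2 → Matrix b₂ b₂ ℂ) (h₁ : ∀ x, IsDensity (σ₁ x)) (h₂ : ∀ x, IsDensity (σ₂ x)) :
    ∃ α₀ : ℝ, ∀ α : ℝ, α₀ ≤ α → Hsum α σ₁ σ₂ ≤ Fval α σ₁ σ₂ := by
  have ev := all_pr HS HP HN _ _ _ _ _ (pr_of_density h₁) (pr_of_density h₂) rfl
  obtain ⟨α₀, hα₀⟩ := (ev.and (eventually_ge_atTop (2 : ℝ))).exists_forall_of_atTop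
  refine ⟨α₀, fun α hα => ?_⟩
  obtain ⟨hL, h2⟩ := hα₀ α hα
  have hα0 : 0 < α := by linarith
  refine Hsum_le_Fval h₁ h₂ hα0 (by linarith) ?_
  rw [Lam, DD_eq h₁ hα0, DD_eq h₂ hα0] at hL
  have A1 : AA α (rhoOf σ₁) = Aop α σ₁ := rfl
  have A2 : AA α (rhoOf σ₂) = Aop α σ₂ := rfl
  rw [A1, A2] at hL
  linarith

end Pool.Agent.Lib_helper43.LA
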